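import Pool.Agent.V8H95.PI.Sub

/-!
# Centred spheres separate, and the argument along a curve
-/

set_option autoImplicit false

namespace Pool.Agent.V8H95.PI

open Pool.Agent.K4H63.PI
open scoped BigOperators Topology ENNReal
open Matrix Filter Set MeasureTheory

theorem fderiv_norm {x : E} (hx : x ≠ 0) (v : E) :
    fderiv ℝ (fun y : E => ‖y‖) x v = ‖x‖⁻¹ * inner ℝ x v := by
  rw [(hasFDerivAt_norm' hx).fderiv]
  simp

theorem norm_contDiffOn : ContDiffOn ℝ 1 (fun x : E => ‖x‖) {0}ᶜ := fun _ hx =>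
  (contDiffAt_norm ℝ hx).contDiffWithinAt

/-- The punctured centred balls separate the ends of `ℝ³ ∖ {0}`. -/
theorem separates_ball {r : ℝ} (hr : 0 < r) : Separates {0} ({0}ᶜ ∩ {x : E | ‖x‖ < r}) where
  isOpen := isOpen_compl_singleton.inter (isOpen_lt continuous_norm continuous_const)
  sub := inter_subset_left
  smooth := by
    intro x hx hx0
    have hn : ‖x‖ = r := by
      have h1 : frontier ({0}ᶜ ∩ {x : E | ‖x‖ < r}) ⊆
          frontier ({0}ᶜ : Set E) ∪ frontier {x : E | ‖x‖ < r} :=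
        (frontier_inter_subset _ _).trans (union_subset_union inter_subset_left inter_subset_right)
      rcases h1 hx with h2 | h2
      · rw [frontier_compl] at h2
        have : frontier ({0} : Set E) ⊆ {0} := isClosed_singleton.frontier_subset
        exact absurd (this h2) hx0
      · exact frontier_lt_subset_eq continuous_norm continuous_const h2
    refine ⟨fun y => ‖y‖ ^ 2 - r ^ 2, ?_, ?_, ?_, ?_⟩
    · exact (contDiff_norm_sq ℝ).contDiffAt.sub contDiffAt_const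
    · simp [hn]
    · intro h
      have h1 : fderiv ℝ (fun y : E => ‖y‖ ^ 2 - r ^ 2) x x = 2 * ‖x‖ ^ 2 := by
        rw [fderiv_sub_const]
        rw [(hasStrictFDerivAt_norm_sq x).hasFDerivAt.fderiv]
        simp [two_mul]
      rw [h] at h1
      have : 0 < ‖x‖ ^ 2 := by rw [hn]; positivity
      simp at h1
      exact hx0 h1
    · filter_upwards [isOpen_compl_singleton.mem_nhds (show x ∈ ({0}ᶜ : Set E) from hx0)] with y hy
      constructor
      · rintro ⟨_, h1⟩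
        have h1 : ‖y‖ < r := h1
        have := norm_nonneg y
        nlinarith
      · intro h1
        refine ⟨hy, ?_⟩
        have : ‖y‖ ^ 2 < r ^ 2 := by linarith
        exact lt_of_pow_lt_pow_left₀ 2 hr.le this
  inner := by
    rintro p rfl
    refine ⟨r, hr, fun x hx => ⟨hx.2, ?_⟩⟩
    simpa using hx.1
  outer := by
    rintro ⟨R, hR⟩
    set e : E := EuclideanSpace.single 0 1 with he
    have hen : ‖e‖ = 1 := by simp [he]
    have hpos : 0 < max r R + 1 + |R| := by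
      have := le_max_left r R
      have := abs_nonneg R
      linarith
    have h1 : (max r R + 1 + |R|) • e ∈ {x : E | R < ‖x‖} := by
      rw [mem_ofPred_eq, ray_norm hen hpos]
      have := le_max_right r R
      have := abs_nonneg R
      linarith
    have h2 := (hR h1).2
    rw [mem_ofPred_eq, ray_norm hen hpos] at h2
    have := le_max_left r R
    have := abs_nonneg R
    linarith

theorem det_metric (φ : ℝ → ℝ) (x : E) : (metric φ x).det = (φ ‖x‖) ^ 12 := by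
  unfold metric
  rw [Matrix.det_smul]
  simp
  ring

theorem sqrt_det_metric {φ : ℝ → ℝ} {x : E} (h : 0 < φ ‖x‖) :
    Real.sqrt (metric φ x).det = (φ ‖x‖) ^ 6 := by
  rw [det_metric, show (φ ‖x‖) ^ 12 = ((φ ‖x‖) ^ 6) ^ 2 by ring, Real.sqrt_sq (by positivity)]

theorem quad_metric (φ : ℝ → ℝ) (x v : E) : quad (metric φ x) v = (φ ‖x‖) ^ 4 * ‖v‖ ^ 2 := by
  unfold quad metric
  rw [norm_sq_eq v]
  simp [Fin.sum_univ_three, Matrix.one_apply]
  ring

theorem det_metric_contDiffOn {φ : ℝ → ℝ} (hφ : Good φ) :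
    ContDiffOn ℝ 1 (fun x => Real.sqrt (metric φ x).det) {0}ᶜ := by
  have h1 : ContDiffOn ℝ 1 (fun x : E => (φ ‖x‖) ^ 6) {0}ᶜ := by
    have h2 : ContDiffOn ℝ 1 φ (Ioi 0) := by
      have := hφ.smooth
      exact this.of_le (by norm_num)
    refine (h2.comp norm_contDiffOn fun x hx => norm_pos_iff.2 hx).pow 6
  refine h1.congr fun x hx => ?_
  exact sqrt_det_metric (hφ.pos _ (norm_pos_iff.2 hx))

theorem leastArea_le_sphere {φ : ℝ → ℝ} (hφ : Good φ) {r : ℝ} (hr : 0 < r) :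
    leastArea {0} (metric φ) ≤ ENNReal.ofReal (sphereArea φ r) := by
  unfold leastArea
  refine (iInf₂_le _ (separates_ball hr)).trans ?_
  have hp := hφ.pos r hr
  have h := area_sublevel_le (G := metric φ) (w := fun x : E => ‖x‖) (c := r)
    (B := ((φ r) ^ 2 * r) ^ 2) (det_metric_contDiffOn hφ) norm_contDiffOn
    (fun x hx => by
      rw [fderiv_norm hx, real_inner_self_eq_norm_sq]
      positivity)
    (fun B' hB' a b ha hab => by
      have hc : ContinuousAt (fun s => ((φ s) ^ 2 * s) ^ 2) r :=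
        (((hφ.cont hr).pow 2).mul continuousAt_id).pow 2
      obtain ⟨δ, hδ, h1⟩ := Metric.eventually_nhds_iff.1 (hc.eventually_lt_const hB')
      refine ⟨δ / 2, by positivity, fun x hxa hxb h2 h3 v hv => ?_⟩
      have hx : 0 < ‖x‖ := ha.trans_le hxa
      have hx0 : x ≠ 0 := norm_pos_iff.1 hx
      have hφx := hφ.pos _ hx
      have h4 : ((φ ‖x‖) ^ 2 * ‖x‖) ^ 2 < B' := by
        apply h1
        rw [Real.dist_eq, abs_lt]
        constructor <;> linarith
      rw [sqrt_det_metric hφx, fderiv_norm hx0, fderiv_norm hx0, real_inner_self_eq_norm_sq]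
      rw [quad_metric] at hv
      have h5 : (φ ‖x‖) ^ 2 * ‖v‖ ≤ 1 := by
        have : ((φ ‖x‖) ^ 2 * ‖v‖) ^ 2 ≤ 1 := by
          calc ((φ ‖x‖) ^ 2 * ‖v‖) ^ 2 = (φ ‖x‖) ^ 4 * ‖v‖ ^ 2 := by ring
            _ ≤ 1 := hv
        exact (sq_le_one_iff₀ (by positivity)).1 this
      have h6 : inner ℝ x v ≤ ‖x‖ * ‖v‖ := real_inner_le_norm x v
      calc (φ ‖x‖) ^ 6 * (‖x‖⁻¹ * inner ℝ x v) * ‖x‖ ^ 3
          ≤ (φ ‖x‖) ^ 6 * (‖x‖⁻¹ * (‖x‖ * ‖v‖)) * ‖x‖ ^ 3 := by gcongr
        _ = (φ ‖x‖) ^ 4 * ((φ ‖x‖) ^ 2 * ‖v‖) * ‖x‖ ^ 3 := by field_simp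
        _ ≤ (φ ‖x‖) ^ 4 * 1 * ‖x‖ ^ 3 := by gcongr
        _ = ((φ ‖x‖) ^ 2 * ‖x‖) ^ 2 * ‖x‖ := by ring
        _ ≤ B' * ‖x‖ := mul_le_mul_of_nonneg_right h4.le hx.le
        _ = B' * (‖x‖⁻¹ * ‖x‖ ^ 2) := by field_simp)
    (by positivity)
  unfold sphereArea
  exact h

/-- The derivative of `tr_S h` in the direction of the tangential part of the velocity of the
curve `c`, `‖c r‖ = r`, parametrised such that its radial speed in the metric `φ⁴ δ` is one. -/
noncomputable def slope (φ : ℝ → ℝ) (h : E → Matrix (Fin 3) (Fin 3) ℝ) (c : ℝ → E) (r : ℝ) : ℝ :=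
  ((φ r) ^ 2)⁻¹ * fderiv ℝ (trS φ h) (c r) (deriv c r - r⁻¹ • c r)

theorem curve_tangential {c : ℝ → E} (hc : ∀ r, 0 < r → ‖c r‖ = r)
    (hd : ∀ r, 0 < r → DifferentiableAt ℝ c r) {r : ℝ} (hr : 0 < r) :
    inner ℝ (c r) (deriv c r - r⁻¹ • c r) = 0 := by
  have h1 : HasDerivAt (fun s => ‖c s‖ ^ 2) (2 * inner ℝ (c r) (deriv c r)) r :=
    (hd r hr).hasDerivAt.norm_sq
  have h2 : HasDerivAt (fun s : ℝ => s ^ 2) (2 * r) r := by simpa using hasDerivAt_pow 2 r
  have h3 : HasDerivAt (fun s => ‖c s‖ ^ 2) (2 * r) r := by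
    refine h2.congr_of_eventuallyEq ?_
    filter_upwards [Ioi_mem_nhds hr] with s hs
    rw [hc s hs]
  have h4 := h1.unique h3
  rw [inner_sub_right, inner_smul_right, real_inner_self_eq_norm_sq, hc r hr]
  have : r⁻¹ * r ^ 2 = r := by field_simp
  rw [this]
  linarith

theorem fderiv_trS_tangential {φ : ℝ → ℝ} (hφ : Good φ) {h : E → Matrix (Fin 3) (Fin 3) ℝ}
    (H : Tensor h) {x : E} (hx : x ≠ 0) {t : E} (ht : inner ℝ x t = 0) :
    fderiv ℝ (trS φ h) x t = ((φ ‖x‖) ^ 4)⁻¹ * fderiv ℝ (qq h) x t := by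
  have hr : 0 < ‖x‖ := norm_pos_iff.2 hx
  have hp := hφ.pos _ hr
  have h1 : HasDerivAt (fun s => ((φ s) ^ 4)⁻¹)
      (-(4 * (φ ‖x‖) ^ 3 * deriv φ ‖x‖) / ((φ ‖x‖) ^ 4) ^ 2) ‖x‖ := by
    have := ((hφ.diff hr).hasDerivAt.fun_pow 4).fun_inv (by positivity)
    simpa using this
  have h2 := hasFDerivAt_radial hx h1
  have h3 := h2.mul (H.qq_diff hx).hasFDerivAt
  have h4 : fderiv ℝ (trS φ h) x = _ := h3.fderiv
  rw [h4]
  simp only [_root_.add_apply, _root_.smul_apply, smul_eq_mul, innerSL_apply_apply, ht]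
  ring

/-- The argument along a curve which crosses every centred sphere once. -/
theorem curve_theorem {φ : ℝ → ℝ} {h : E → Matrix (Fin 3) (Fin 3) ℝ} {m : ℝ} (hφ : Good φ)
    (H : Tensor h) (flat : FlatEnd φ m) (decay : Decay h) {c : ℝ → E}
    (hc : ∀ r, 0 < r → ‖c r‖ = r) (hd : ∀ r, 0 < r → DifferentiableAt ℝ c r) {r₁ : ℝ}
    (hr₁ : 0 < r₁)
    (dec : ∀ r : ℝ, r₁ ≤ r → momentumNorm (metric φ) h (c r) ≤ energy (metric φ) h (c r))
    (cond : ∀ r : ℝ, r₁ ≤ r → |trS φ h (c r)| ≤ meanCurv φ (c r) →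
      0 ≤ trS φ h (c r) * (divS φ h (c r) + slope φ h c r) +
        meanCurv φ (c r) * transS φ h (c r) / 2)
    (trapped : meanCurv φ (c r₁) ≤ |trS φ h (c r₁)|) :
    ∃ r₀, r₁ ≤ r₀ ∧ Real.sqrt (sphereArea φ r₀ / (16 * Real.pi)) ≤ m := by
  obtain ⟨C, hC⟩ := decay
  have hne : ∀ r, 0 < r → c r ≠ 0 := fun r hr => by
    rw [← norm_pos_iff, hc r hr]; exact hr
  have hbd : ∀ r : ℝ, 1 ≤ r → |(fun r : ℝ => qq h (c r)) r| ≤ 12 * C / r ^ 2 := by
    intro r hr
    have h0 : 0 < r := by linarith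
    have h1 := hC (c r) (by rw [hc r h0]; exact hr)
    rw [hc r h0] at h1
    have h2 := qq_bound (hne r h0) h1
    calc |qq h (c r)| ≤ 12 * (C / r ^ 2) := h2
      _ = 12 * C / r ^ 2 := by ring
  set τ : ℝ → E := fun r => deriv c r - r⁻¹ • c r with hτ
  have hq : ∀ r : ℝ, 0 < r → HasDerivAt (fun r : ℝ => qq h (c r))
      (dr (qq h) (c r) + fderiv ℝ (qq h) (c r) (τ r)) r := by
    intro r hr
    have h1 := (H.qq_diff (hne r hr)).hasFDerivAt.comp_hasDerivAt r (hd r hr).hasDerivAt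
    refine h1.congr_deriv ?_
    rw [dr_eq, hc r hr, ← map_add, hτ]
    congr 1
    exact (add_sub_cancel _ _).symm
  have hlim : Tendsto (FF φ (fun r : ℝ => qq h (c r))) atTop (𝓝 (2 * m)) := by
    have := (flat.YY hφ).add (tendsto_sq_term flat.one hbd)
    rw [add_zero] at this
    exact this
  obtain ⟨r₀, h1, h2⟩ := oned hφ (q := fun r : ℝ => qq h (c r))
    (F' := fun r : ℝ => r ^ 2 / (2 * (φ r) ^ 2) *
      (pp φ r * ((φ r) ^ 8 * scal (metric φ) (c r)) + r * qq h (c r) *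
        (dr (qq h) (c r) + fderiv ℝ (qq h) (c r) (τ r)) +
        (3 / 2 - r ^ 2 * psi φ r / 2) * (qq h (c r)) ^ 2)) (m := m) hr₁
    (fun r hr => (hq r hr).continuousAt)
    (fun r hr => hasDerivAt_FF hφ hr (hc r hr) (hq r hr))
    (by
      intro r hr hu
      have h0 : 0 < r := hr₁.trans_le hr
      have hx := hne r h0
      have hn := hc r h0
      have hu' : |‖c r‖ * qq h (c r)| ≤ 2 * (φ ‖c r‖) ^ 2 * pp φ ‖c r‖ := by
        rw [hn]; exact hu
      have hp := hφ.pos r h0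
      have k1 := key hφ H hx (dec r hr) hu'
      have k2 := cond r hr ((untrapped_iff hφ h hx).2 hu')
      have k3 : slope φ h c r = ((φ r) ^ 6)⁻¹ * fderiv ℝ (qq h) (c r) (τ r) := by
        unfold slope
        rw [fderiv_trS_tangential hφ H hx (curve_tangential hc hd h0), hn]
        simp only [hτ]
        field_simp
      have k4 : 0 ≤ r * qq h (c r) * (divMixed h (c r) + fderiv ℝ (qq h) (c r) (τ r)) +
          pp φ r * transverse h (c r) := by
        rw [k3, meanCurv_eq hφ hx] at k2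
        unfold trS divS transS at k2
        rw [hn] at k2
        have e : ((φ r) ^ 4)⁻¹ * qq h (c r) * (((φ r) ^ 6)⁻¹ * divMixed h (c r) +
            ((φ r) ^ 6)⁻¹ * fderiv ℝ (qq h) (c r) (τ r)) +
            2 * pp φ r / ((φ r) ^ 2 * r) * (((φ r) ^ 8)⁻¹ * transverse h (c r)) / 2 =
            (r * qq h (c r) * (divMixed h (c r) + fderiv ℝ (qq h) (c r) (τ r)) +
              pp φ r * transverse h (c r)) * ((φ r) ^ 10 * r)⁻¹ := by
          field_simp
        rw [e] at k2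
        exact nonneg_of_mul_nonneg_left k2 (by positivity)
      rw [hn] at k1
      refine mul_nonneg (by positivity) ?_
      unfold pp at k4 ⊢
      linarith)
    (by
      have hx := hne r₁ hr₁
      have hn := hc r₁ hr₁
      by_contra hlt
      have h3 := (untrapped_iff hφ h hx).2 (by rw [hn]; exact (not_le.1 hlt).le)
      have h4 : |trS φ h (c r₁)| = meanCurv φ (c r₁) := le_antisymm h3 trapped
      have hp := hφ.pos r₁ hr₁
      rw [meanCurv_eq hφ hx, hn] at h4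
      unfold trS at h4
      rw [hn, abs_mul, abs_of_pos (show (0:ℝ) < ((φ r₁) ^ 4)⁻¹ by positivity)] at h4
      apply hlt
      rw [abs_mul, abs_of_pos hr₁]
      field_simp at h4
      nlinarith [h4])
    (flat.pp hφ) (tendsto_X flat.one hbd) hlim
  refine ⟨r₀, h1, ?_⟩
  rw [sqrt_area hφ (hr₁.trans_le h1)]
  linarith

/-- From one centred sphere satisfying the Penrose inequality to the least area. -/
theorem finish {φ : ℝ → ℝ} (hφ : Good φ) {m r₀ : ℝ} (hr₀ : 0 < r₀)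
    (h : Real.sqrt (sphereArea φ r₀ / (16 * Real.pi)) ≤ m) :
    0 < m ∧ leastArea {0} (metric φ) ≤ ENNReal.ofReal (16 * Real.pi * m ^ 2) := by
  have hp := hφ.pos r₀ hr₀
  have hpi := Real.pi_pos
  rw [sqrt_area hφ hr₀] at h
  have h1 : 0 < (φ r₀) ^ 2 * r₀ / 2 := by positivity
  refine ⟨h1.trans_le h, (leastArea_le_sphere hφ hr₀).trans (ENNReal.ofReal_le_ofReal ?_)⟩
  unfold sphereArea
  have h2 : ((φ r₀) ^ 2 * r₀ / 2) ^ 2 ≤ m ^ 2 := pow_le_pow_left₀ h1.le h 2
  nlinarith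

end Pool.Agent.V8H95.PI
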