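import Pool.Agent.V8H95.PI.Level

/-!
# The ADM flux in terms of the radial and tangential parts of the metric
-/

set_option autoImplicit false

namespace Pool.Agent.V8H95.PI

open Pool.Agent.K4H63.PI
open scoped BigOperators Topology ENNReal
open Matrix Filter Set MeasureTheory

/-- The ADM flux of a metric which need not have any symmetry. -/
theorem admFlux_eq {G : E → Matrix (Fin 3) (Fin 3) ℝ} (T : Tensor G) {s : ℝ} (hs : 0 < s) :
    admFlux G s = s ^ 2 / 4 * sphAvg (fun x => (2 * hrad G x - qq G x) / ‖x‖ - dr (qq G) x) s := by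
  have h1 : ∀ ω : Metric.sphere (0 : E) 1,
      ∑ j, (∑ i, (pd i (fun y => G y i j) (s • (ω : E)) -
        pd j (fun y => G y i i) (s • (ω : E)))) * (ω : E) j =
      divMixed G (s • (ω : E)) + ((2 * hrad G (s • (ω : E)) - qq G (s • (ω : E))) /
        ‖s • (ω : E)‖ - dr (qq G) (s • (ω : E))) := by
    intro ω
    have hω := sphere_norm ω
    have hx := ray_ne hω hs
    have hn := ray_norm hω hs
    have hq : dr (qq G) (s • (ω : E)) = dr (tr0 G) (s • (ω : E)) - dr (hrad G) (s • (ω : E)) := by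
      unfold dr
      rw [← Finset.sum_sub_distrib]
      refine Finset.sum_congr rfl fun i _ => ?_
      rw [show qq G = fun y => tr0 G y - hrad G y from rfl, pd_sub (T.tr_diff hx) (T.hrad_diff hx)]
      ring
    have ht : dr (tr0 G) (s • (ω : E)) =
        ∑ j, (ω : E) j * ∑ i, pd j (fun y => G y i i) (s • (ω : E)) := by
      unfold dr
      refine Finset.sum_congr rfl fun j _ => ?_
      rw [hn, show tr0 G = fun y => ∑ i, G y i i from rfl, pd_sum fun i => T.diff hx i i]
      congr 1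
      rw [PiLp.smul_apply, smul_eq_mul, mul_div_assoc, mul_comm, div_mul_cancel₀ _ hs.ne']
    rw [divMixed_eq T hx, hq, ht, hn]
    have hd : ∀ j, (s • (ω : E)) j / s = (ω : E) j := by
      intro j
      rw [PiLp.smul_apply, smul_eq_mul, mul_div_assoc, mul_comm, div_mul_cancel₀ _ hs.ne']
    simp only [hd]
    have hsw : ∑ i, ∑ j, (ω : E) j * pd i (fun y => G y i j) (s • (ω : E)) =
        ∑ j, ∑ i, (ω : E) j * pd i (fun y => G y i j) (s • (ω : E)) := Finset.sum_comm
    have hqq : tr0 G (s • (ω : E)) = qq G (s • (ω : E)) + hrad G (s • (ω : E)) := by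
      unfold qq; ring
    rw [hsw, hqq]
    have hl : ∑ j, (∑ i, (pd i (fun y => G y i j) (s • (ω : E)) -
        pd j (fun y => G y i i) (s • (ω : E)))) * (ω : E) j =
        ∑ j, ∑ i, (ω : E) j * pd i (fun y => G y i j) (s • (ω : E)) -
        ∑ j, (ω : E) j * ∑ i, pd j (fun y => G y i i) (s • (ω : E)) := by
      rw [← Finset.sum_sub_distrib]
      refine Finset.sum_congr rfl fun j _ => ?_
      rw [Finset.sum_sub_distrib, sub_mul, Finset.sum_mul, Finset.mul_sum, Finset.sum_mul]
      congr 1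
      · exact Finset.sum_congr rfl fun i _ => by ring
      · exact Finset.sum_congr rfl fun i _ => by ring
    rw [hl]
    ring
  unfold admFlux
  simp only [h1]
  have hc : ContinuousOn (fun x => (2 * hrad G x - qq G x) / ‖x‖ - dr (qq G) x) {0}ᶜ := by
    have hq : ContDiffOn ℝ 1 (qq G) {0}ᶜ := fun x hx => (T.qq_contDiffAt hx).contDiffWithinAt
    have hr : ContinuousOn (hrad G) {0}ᶜ := fun x hx =>
      (T.hrad_contDiffAt hx).continuousAt.continuousWithinAt
    refine ContinuousOn.sub (ContinuousOn.div ?_ continuous_norm.continuousOn fun x hx =>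
      norm_ne_zero_iff.2 hx) (dr_cont hq)
    exact (continuousOn_const.mul hr).sub hq.continuousOn
  have h2 := integral_add (sph_integrable (divMixed_cont T) hs) (sph_integrable hc hs)
  have h3 : ∫ ω, divMixed G (s • (ω : E)) ∂sph = 0 := by
    have := sphInt_div_eq_zero (fun i => mixed_contDiffOn T i) (fun x hx => mixed_tangential G hx) hs
    exact this
  rw [h3, zero_add] at h2
  rw [h2]
  unfold sphAvg
  have := Real.pi_ne_zero
  field_simp
  ring

/-- Choice of a ray along which the mass function is at most the total mass. -/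
theorem exists_ray {G : E → Matrix (Fin 3) (Fin 3) ℝ} {μ M y : E → ℝ} {m R₁ C : ℝ}
    (hR₁ : 0 < R₁)
    (mass : Tendsto (admFlux G) atTop (𝓝 m))
    (hM : ContinuousOn M {0}ᶜ) (hμ : ContinuousOn μ {0}ᶜ) (hy : ContDiffOn ℝ 1 y {0}ᶜ)
    (flux : ∀ s, 0 < s → admFlux G s = sphAvg M s + s / 4 * sphAvg (dr y) s)
    (hyC : ∀ x : E, R₁ ≤ ‖x‖ → |y x| ≤ C)
    (mono : ∀ ω : E, ‖ω‖ = 1 → MonotoneOn (fun s : ℝ => μ (s • ω)) (Ici R₁))
    (low : ∀ ε > 0, ∃ R : ℝ, ∀ x : E, R ≤ ‖x‖ → μ x ≤ M x + ε) :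
    ∃ ω : E, ‖ω‖ = 1 ∧ ∀ s, R₁ ≤ s → μ (s • ω) ≤ m := by
  by_contra hcon
  push Not at hcon
  -- a sphere on which `μ > m`
  obtain ⟨s₁, hs₁, hgt⟩ : ∃ s₁, R₁ ≤ s₁ ∧ ∀ ω : Metric.sphere (0 : E) 1, m < μ (s₁ • (ω : E)) := by
    set V : ℕ → Set (Metric.sphere (0 : E) 1) := fun n =>
      {ω | m < μ ((R₁ + n) • (ω : E))} with hV
    have hVo : ∀ n, IsOpen (V n) := fun n =>
      isOpen_lt continuous_const (sph_cont hμ (by positivity))
    have hVm : Monotone V := by
      intro n k hnk ω hω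
      have h1 : (n : ℝ) ≤ k := by exact_mod_cast hnk
      have hn : (0 : ℝ) ≤ n := Nat.cast_nonneg n
      have h2 := mono ω (sphere_norm ω) (show R₁ + (n : ℝ) ∈ Ici R₁ from by
        simp) (show R₁ + (k : ℝ) ∈ Ici R₁ from by simp) (by linarith)
      exact lt_of_lt_of_le hω h2
    have hcov : (univ : Set (Metric.sphere (0 : E) 1)) ⊆ ⋃ n, V n := by
      intro ω _
      obtain ⟨s, hs, h1⟩ := hcon ω (sphere_norm ω)
      obtain ⟨n, hn⟩ := exists_nat_ge s
      refine mem_iUnion.2 ⟨n, lt_of_lt_of_le h1 ?_⟩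
      exact mono ω (sphere_norm ω) hs (show R₁ + (n : ℝ) ∈ Ici R₁ from by simp) (by linarith)
    obtain ⟨n, hn⟩ := isCompact_univ.elim_directed_cover V hVo hcov hVm.directed_le
    exact ⟨R₁ + n, by simp, fun ω => hn (mem_univ ω)⟩
  have hs₁0 : 0 < s₁ := hR₁.trans_le hs₁
  obtain ⟨δ, hδ, hge⟩ : ∃ δ > 0, ∀ ω : Metric.sphere (0 : E) 1, m + δ ≤ μ (s₁ • (ω : E)) := by
    have hne : (univ : Set (Metric.sphere (0 : E) 1)).Nonempty := by
      refine ⟨⟨EuclideanSpace.single 0 1, ?_⟩, mem_univ _⟩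
      simp
    obtain ⟨ω₀, _, hmin⟩ := isCompact_univ.exists_isMinOn hne (sph_cont hμ hs₁0).continuousOn
    refine ⟨μ (s₁ • (ω₀ : E)) - m, by linarith [hgt ω₀], fun ω => ?_⟩
    have := hmin (mem_univ ω)
    simp only [mem_ofPred_eq] at this
    linarith
  obtain ⟨s₂, hs₂⟩ := low (δ / 4) (by positivity)
  obtain ⟨s₃, hs₃⟩ := (eventually_atTop.1 (mass.eventually (ge_mem_nhds
    (show m < m + δ / 4 by linarith))))
  set s₄ := max s₁ (max s₂ (max s₃ 1)) with hs₄
  have h41 : s₁ ≤ s₄ := le_max_left _ _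
  have h42 : s₂ ≤ s₄ := (le_max_left _ _).trans (le_max_right _ _)
  have h43 : s₃ ≤ s₄ := (le_max_left _ _).trans ((le_max_right _ _).trans (le_max_right _ _))
  have h44 : 1 ≤ s₄ := (le_max_right _ _).trans ((le_max_right _ _).trans (le_max_right _ _))
  have hder : ∀ s, s₄ ≤ s → sphAvg (dr y) s ≤ -(2 * δ) / s := by
    intro s hs
    have hs0 : 0 < s := by linarith
    have h1 : m + 3 * δ / 4 ≤ sphAvg M s := by
      rw [← sphAvg_const (m + 3 * δ / 4) s]
      refine sphAvg_mono continuousOn_const hM hs0 fun ω hω => ?_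
      have h2 := hs₂ (s • ω) (by rw [ray_norm hω hs0]; linarith)
      have h3 := mono ω hω (show s₁ ∈ Ici R₁ from hs₁) (show s ∈ Ici R₁ from by
        simp only [mem_Ici]; linarith) (by linarith)
      have h4 := hge ⟨ω, by simpa using hω⟩
      simp only at h3 h4
      linarith
    have h5 := hs₃ s (by linarith)
    rw [flux s hs0] at h5
    rw [le_div_iff₀ hs0]
    have h6 : s / 4 * sphAvg (dr y) s ≤ -(δ / 2) := by linarith
    linarith
  have hanti : AntitoneOn (fun s => sphAvg y s + 2 * δ * Real.log s) (Ici s₄) := by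
    have hd : ∀ s, s₄ ≤ s → HasDerivAt (fun s => sphAvg y s + 2 * δ * Real.log s)
        (sphAvg (dr y) s + 2 * δ * s⁻¹) s := fun s hs =>
      (sphAvg_hasDerivAt hy (by linarith)).add
        ((Real.hasDerivAt_log (by linarith)).const_mul _)
    refine antitoneOn_of_deriv_nonpos (convex_Ici _)
      (fun s hs => (hd s hs).continuousAt.continuousWithinAt)
      (fun s hs => (hd s (interior_subset hs)).differentiableAt.differentiableWithinAt)
      fun s hs => ?_
    have hs' : s₄ ≤ s := interior_subset hs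
    rw [(hd s hs').deriv]
    have h1 := hder s hs'
    have h2 : -(2 * δ) / s = -(2 * δ * s⁻¹) := by ring
    linarith
  have hlow : ∀ s, s₄ ≤ s → -C ≤ sphAvg y s := by
    intro s hs
    have hs0 : 0 < s := by linarith
    rw [← sphAvg_const (-C) s]
    refine sphAvg_mono continuousOn_const hy.continuousOn hs0 fun ω hω => ?_
    exact (abs_le.1 (hyC (s • ω) (by rw [ray_norm hω hs0]; linarith))).1
  have hlog : Tendsto (fun s => 2 * δ * Real.log s) atTop atTop :=
    Real.tendsto_log_atTop.const_mul_atTop (by positivity)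
  obtain ⟨s, hs, hbig⟩ := ((eventually_ge_atTop s₄).and (hlog.eventually_gt_atTop
    (sphAvg y s₄ + 2 * δ * Real.log s₄ + C))).exists
  have h1 := hanti (show s₄ ∈ Ici s₄ from le_refl s₄) (show s ∈ Ici s₄ from hs) hs
  have h2 := hlow s hs
  simp only at h1
  linarith

end Pool.Agent.V8H95.PI
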