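import Pool.Agent.V8H95.PI.Flux

/-!
# Hypersurfaces: regularity and the mass function along the rays
-/

set_option autoImplicit false

namespace Pool.Agent.V8H95.PI

open Pool.Agent.K4H63.PI
open scoped BigOperators Topology ENNReal
open Matrix Filter Set MeasureTheory

/-- The hypersurface `x ↦ (u(x), v(x), x / |x|)`, `x ∈ ℝ³ ∖ {0}`, of the spacetime `Q × S²` with the
metric `-Ω² du dv + r² dω²` is smooth and spacelike (the induced metric is positive definite), and
`u` decreases along the rays. No symmetry is assumed: `u` and `v` may depend on the direction. -/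
structure Hypersurface (Q : Set (ℝ × ℝ)) (Ω r : ℝ × ℝ → ℝ) (u v : E → ℝ) : Prop where
  maps : ∀ x : E, x ≠ 0 → (u x, v x) ∈ Q
  smooth_u : ContDiffOn ℝ (⊤ : ℕ∞) u {0}ᶜ
  smooth_v : ContDiffOn ℝ (⊤ : ℕ∞) v {0}ᶜ
  spacelike : ∀ x : E, x ≠ 0 → ∀ w : E, w ≠ 0 → 0 < quad (slice Ω r u v x) w
  orient : ∀ x : E, x ≠ 0 → fderiv ℝ u x x < 0

/-- The derivative of the area radius `r` in the direction of the future unit normal in `Q` of the
image `s ↦ (u, v)(s x)` of the ray through `x`. -/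
noncomputable def normalRadius (Ω r : ℝ × ℝ → ℝ) (u v : E → ℝ) (x : E) : ℝ :=
  (pv r (u x, v x) * dr v x - pu r (u x, v x) * dr u x) / Real.sqrt (hrad (slice Ω r u v) x)

/-- A point which is neither trapped nor marginally trapped: `∂_u r < 0 < ∂_v r`. -/
def Regular (r : ℝ × ℝ → ℝ) (u v : E → ℝ) (x : E) : Prop :=
  pu r (u x, v x) < 0 ∧ 0 < pv r (u x, v x)

theorem pair_apply (L : ℝ × ℝ →L[ℝ] ℝ) (a b : ℝ) : L (a, b) = a * L (1, 0) + b * L (0, 1) := by
  have h : ((a, b) : ℝ × ℝ) = a • ((1 : ℝ), (0 : ℝ)) + b • ((0 : ℝ), (1 : ℝ)) := by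
    simp
  conv_lhs => rw [h]
  rw [map_add, map_smul, map_smul, smul_eq_mul, smul_eq_mul]

theorem dr_eq' (F : E → ℝ) (x : E) : dr F x = ‖x‖⁻¹ * fderiv ℝ F x x := by
  rw [dr_eq, map_smul, smul_eq_mul]

section

variable {Q : Set (ℝ × ℝ)} {Ω r : ℝ × ℝ → ℝ} {u v : E → ℝ}

theorem nhds_ne {x : E} (hx : x ≠ 0) : ({0}ᶜ : Set E) ∈ 𝓝 x := isOpen_compl_singleton.mem_nhds hx

theorem Hypersurface.u_at (H : Hypersurface Q Ω r u v) {x : E} (hx : x ≠ 0) :
    ContDiffAt ℝ (⊤ : ℕ∞) u x := H.smooth_u.contDiffAt (nhds_ne hx)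

theorem Hypersurface.v_at (H : Hypersurface Q Ω r u v) {x : E} (hx : x ≠ 0) :
    ContDiffAt ℝ (⊤ : ℕ∞) v x := H.smooth_v.contDiffAt (nhds_ne hx)

theorem Hypersurface.comp_at (H : Hypersurface Q Ω r u v) {f : ℝ × ℝ → ℝ} {x : E} (hx : x ≠ 0)
    (hf : ContDiffAt ℝ 1 f (u x, v x)) : ContDiffAt ℝ 1 (fun y => f (u y, v y)) x :=
  ContDiffAt.comp (g := f) (f := fun y => (u y, v y)) x hf
    (((H.u_at hx).of_le (by exact_mod_cast le_top)).prodMk
      ((H.v_at hx).of_le (by exact_mod_cast le_top)))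

theorem pd_contDiffAt {F : E → ℝ} {x : E} (hF : ContDiffAt ℝ (⊤ : ℕ∞) F x) (i : Fin 3) :
    ContDiffAt ℝ 1 (pd i F) x := by
  unfold pd
  exact ((hF.of_le (m := 2) (WithTop.coe_le_coe.2 (le_top : (2 : ℕ∞) ≤ ⊤))).fderiv_right (m := 1)
    (by norm_num)).clm_apply contDiffAt_const

theorem Hypersurface.R_at (H : Hypersurface Q Ω r u v) (S : Spacetime Q Ω r) {x : E} (hx : x ≠ 0) :
    ContDiffAt ℝ 1 (fun y => r (u y, v y)) x :=
  H.comp_at hx ((S.r2 (H.maps x hx)).of_le (by norm_num))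

theorem kd_comm (i j : Fin 3) : kd i j = kd j i := by
  unfold kd
  by_cases h : i = j
  · simp [h]
  · rw [if_neg h, if_neg (Ne.symm h)]

theorem Hypersurface.tensor (H : Hypersurface Q Ω r u v) (S : Spacetime Q Ω r) :
    Tensor (slice Ω r u v) where
  symm := fun x _ i j => by
    rw [slice_eq_form]
    exact form_symm _ _ _ _ _ i j
  smooth := fun i j x hx => by
    have hx : x ≠ 0 := hx
    refine ContDiffAt.contDiffWithinAt ?_
    unfold slice
    simp only [Matrix.of_apply]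
    have hΩ : ContDiffAt ℝ 1 (fun y => Ω (u y, v y)) x :=
      H.comp_at hx ((S.Ω2 (H.maps x hx)).of_le (by norm_num))
    refine ContDiffAt.sub (ContDiffAt.mul (ContDiffAt.div ((H.R_at S hx).pow 2)
      ((contDiffAt_norm ℝ hx).pow 2) (pow_ne_zero 2 (norm_ne_zero_iff.2 hx)))
      (contDiffAt_const.sub ((unit_contDiffAt hx i).mul (unit_contDiffAt hx j)))) ?_
    exact ((hΩ.pow 2).div_const 2).mul (((pd_contDiffAt (H.u_at hx) i).mul
      (pd_contDiffAt (H.v_at hx) j)).add ((pd_contDiffAt (H.v_at hx) i).mul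
      (pd_contDiffAt (H.u_at hx) j)))

theorem Hypersurface.det_pos (H : Hypersurface Q Ω r u v) {x : E} (hx : x ≠ 0) :
    0 < (slice Ω r u v x).det :=
  det_pos_of_quad (fun i j => by rw [slice_eq_form]; exact form_symm _ _ _ _ _ i j)
    (H.spacelike x hx)

theorem Hypersurface.sqrt_det (H : Hypersurface Q Ω r u v) (S : Spacetime Q Ω r) :
    ContDiffOn ℝ 1 (fun x => Real.sqrt (slice Ω r u v x).det) {0}ᶜ := by
  intro x hx
  have hx : x ≠ 0 := hx
  refine ContDiffAt.contDiffWithinAt ?_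
  have T := H.tensor S
  have h : ContDiffAt ℝ 1 (fun x => (slice Ω r u v x).det) x := by
    have e : (fun x => (slice Ω r u v x).det) = fun x =>
      slice Ω r u v x 0 0 * slice Ω r u v x 1 1 * slice Ω r u v x 2 2 -
      slice Ω r u v x 0 0 * slice Ω r u v x 1 2 * slice Ω r u v x 2 1 -
      slice Ω r u v x 0 1 * slice Ω r u v x 1 0 * slice Ω r u v x 2 2 +
      slice Ω r u v x 0 1 * slice Ω r u v x 1 2 * slice Ω r u v x 2 0 +
      slice Ω r u v x 0 2 * slice Ω r u v x 1 0 * slice Ω r u v x 2 1 -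
      slice Ω r u v x 0 2 * slice Ω r u v x 1 1 * slice Ω r u v x 2 0 := by
      funext x
      exact Matrix.det_fin_three _
    rw [e]
    have t := fun i j => T.contDiffAt hx i j
    exact (((((((t 0 0).mul (t 1 1)).mul (t 2 2)).sub (((t 0 0).mul (t 1 2)).mul (t 2 1))).sub
      (((t 0 1).mul (t 1 0)).mul (t 2 2))).add (((t 0 1).mul (t 1 2)).mul (t 2 0))).add
      (((t 0 2).mul (t 1 0)).mul (t 2 1))).sub (((t 0 2).mul (t 1 1)).mul (t 2 0))
  exact h.sqrt (H.det_pos hx).ne'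

theorem hrad_eq_quad (G : E → Matrix (Fin 3) (Fin 3) ℝ) (x : E) :
    hrad G x * ‖x‖ ^ 2 = quad (G x) x ∨ x = 0 := by
  by_cases hx : x = 0
  · exact Or.inr hx
  · left
    have hr : ‖x‖ ≠ 0 := norm_ne_zero_iff.2 hx
    unfold hrad quad
    rw [Finset.sum_mul]
    refine Finset.sum_congr rfl fun i _ => ?_
    rw [Finset.sum_mul]
    refine Finset.sum_congr rfl fun j _ => ?_
    field_simp

theorem Hypersurface.hrad_pos (H : Hypersurface Q Ω r u v) {x : E} (hx : x ≠ 0) :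
    0 < hrad (slice Ω r u v) x := by
  have h1 := (hrad_eq_quad (slice Ω r u v) x).resolve_right hx
  have h2 := H.spacelike x hx x hx
  have h3 : 0 < ‖x‖ ^ 2 := by have := norm_pos_iff.2 hx; positivity
  rw [← h1] at h2
  exact (mul_pos_iff_of_pos_right h3).1 h2

theorem Hypersurface.dr_u_neg (H : Hypersurface Q Ω r u v) {x : E} (hx : x ≠ 0) : dr u x < 0 := by
  rw [dr_eq']
  have := norm_pos_iff.2 hx
  exact mul_neg_of_pos_of_neg (by positivity) (H.orient x hx)

theorem Hypersurface.dr_v_pos (H : Hypersurface Q Ω r u v) (S : Spacetime Q Ω r) {x : E}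
    (hx : x ≠ 0) : 0 < dr v x := by
  have h1 := H.hrad_pos hx
  rw [hrad_slice hx] at h1
  have h2 := H.dr_u_neg hx
  have h3 := S.lapse_pos _ (H.maps x hx)
  by_contra h4
  have h5 : 0 ≤ dr u x * dr v x := mul_nonneg_of_nonpos_of_nonpos h2.le (not_lt.1 h4)
  have h6 : 0 ≤ (Ω (u x, v x)) ^ 2 * (dr u x * dr v x) := by positivity
  linarith

theorem Hypersurface.fderiv_v_pos (H : Hypersurface Q Ω r u v) (S : Spacetime Q Ω r) {x : E}
    (hx : x ≠ 0) : 0 < fderiv ℝ v x x := by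
  have h := H.dr_v_pos S hx
  rw [dr_eq'] at h
  have := norm_pos_iff.2 hx
  exact (mul_pos_iff_of_pos_left (by positivity)).1 h

theorem Hypersurface.fderiv_comp (H : Hypersurface Q Ω r u v) {f : ℝ × ℝ → ℝ} {x : E}
    (hx : x ≠ 0) (hf : DifferentiableAt ℝ f (u x, v x)) (y : E) :
    fderiv ℝ (fun y => f (u y, v y)) x y =
      fderiv ℝ u x y * pu f (u x, v x) + fderiv ℝ v x y * pv f (u x, v x) := by
  have hu : HasFDerivAt u (fderiv ℝ u x) x :=
    ((H.u_at hx).differentiableAt (by simp)).hasFDerivAt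
  have hv : HasFDerivAt v (fderiv ℝ v x) x :=
    ((H.v_at hx).differentiableAt (by simp)).hasFDerivAt
  have h1 : HasFDerivAt (fun y => f (u y, v y))
      ((fderiv ℝ f (u x, v x)).comp ((fderiv ℝ u x).prod (fderiv ℝ v x))) x :=
    HasFDerivAt.comp (g := f) (f := fun y => (u y, v y)) x hf.hasFDerivAt (hu.prodMk hv)
  rw [h1.fderiv]
  unfold pu pv
  rw [ContinuousLinearMap.comp_apply, ContinuousLinearMap.prod_apply, pair_apply]

theorem Hypersurface.dr_comp (H : Hypersurface Q Ω r u v) {f : ℝ × ℝ → ℝ} {x : E}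
    (hx : x ≠ 0) (hf : DifferentiableAt ℝ f (u x, v x)) :
    dr (fun y => f (u y, v y)) x = dr u x * pu f (u x, v x) + dr v x * pv f (u x, v x) := by
  rw [dr_eq', dr_eq', dr_eq', H.fderiv_comp hx hf]
  ring

theorem Hypersurface.dr_R (H : Hypersurface Q Ω r u v) (S : Spacetime Q Ω r) {x : E}
    (hx : x ≠ 0) : dr (fun y => r (u y, v y)) x =
      dr u x * pu r (u x, v x) + dr v x * pv r (u x, v x) :=
  H.dr_comp hx ((S.r2 (H.maps x hx)).differentiableAt (by norm_num))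

/-- The Misner–Sharp mass in terms of the geometry of the hypersurface. -/
theorem Hypersurface.ms_eq (H : Hypersurface Q Ω r u v) (S : Spacetime Q Ω r) {x : E}
    (hx : x ≠ 0) : msMass Ω r (u x, v x) = r (u x, v x) / 2 *
      (1 - (dr (fun y => r (u y, v y)) x) ^ 2 / hrad (slice Ω r u v) x +
        (normalRadius Ω r u v x) ^ 2) := by
  have hA := H.hrad_pos hx
  have hΩ := S.lapse_pos _ (H.maps x hx)
  have hu := H.dr_u_neg hx
  have hv := H.dr_v_pos S hx
  unfold normalRadius msMass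
  rw [H.dr_R S hx, div_pow, Real.sq_sqrt hA.le, hrad_slice hx]
  have h1 : dr u x ≠ 0 := hu.ne
  have h2 : dr v x ≠ 0 := hv.ne'
  field_simp
  ring

theorem Hypersurface.ms_deriv (H : Hypersurface Q Ω r u v) (S : Spacetime Q Ω r) {ω : E}
    (hω : ‖ω‖ = 1) {s : ℝ} (hs : 0 < s) :
    HasDerivAt (fun s : ℝ => msMass Ω r (u (s • ω), v (s • ω)))
      ((r (u (s • ω), v (s • ω))) ^ 2 / (Ω (u (s • ω), v (s • ω))) ^ 2 *
        (dr u (s • ω) * (pu r (u (s • ω), v (s • ω)) * einUV Ω r (u (s • ω), v (s • ω)) -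
          pv r (u (s • ω), v (s • ω)) * einUU Ω r (u (s • ω), v (s • ω))) +
        dr v (s • ω) * (pv r (u (s • ω), v (s • ω)) * einUV Ω r (u (s • ω), v (s • ω)) -
          pu r (u (s • ω), v (s • ω)) * einVV Ω r (u (s • ω), v (s • ω))))) s := by
  have hx := ray_ne hω hs
  have hp := H.maps _ hx
  have h1 := hasDerivAt_ray hω hs (((H.comp_at hx (S.ms_contDiffAt hp)).differentiableAt
    (by norm_num)))
  refine h1.congr_deriv ?_
  rw [H.dr_comp hx ((S.ms_contDiffAt hp).differentiableAt (by norm_num)), S.pu_msMass hp,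
    S.pv_msMass hp]
  ring

end

end Pool.Agent.V8H95.PI
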