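import Pool.Agent.V8H95.PI.Slice

/-!
# Level sets of radially increasing functions
-/

set_option autoImplicit false

namespace Pool.Agent.V8H95.PI

open Pool.Agent.K4H63.PI
open scoped BigOperators Topology ENNReal
open Matrix Filter Set MeasureTheory

/-- `w` is smooth and increasing along the rays, and its level `c` separates the two ends. -/
structure RadialFn (w : E → ℝ) (c : ℝ) : Prop where
  smooth : ContDiffOn ℝ (⊤ : ℕ∞) w {0}ᶜ
  incr : ∀ x : E, x ≠ 0 → 0 < fderiv ℝ w x x
  inner : ∀ᶠ x in 𝓝[≠] (0 : E), w x < c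
  outer : ∀ᶠ x in cocompact E, c < w x

variable {w : E → ℝ} {c : ℝ}

theorem RadialFn.contAt (W : RadialFn w c) {x : E} (hx : x ≠ 0) : ContinuousAt w x :=
  W.smooth.continuousOn.continuousAt (isOpen_compl_singleton.mem_nhds hx)

theorem RadialFn.exists_inner (W : RadialFn w c) :
    ∃ δ > 0, ∀ x : E, x ≠ 0 → ‖x‖ < δ → w x < c := by
  have h := W.inner
  rw [eventually_nhdsWithin_iff, Metric.eventually_nhds_iff] at h
  obtain ⟨δ, hδ, h⟩ := h
  refine ⟨δ, hδ, fun x hx hxδ => h ?_ hx⟩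
  rwa [dist_zero_right]

theorem RadialFn.exists_outer (W : RadialFn w c) : ∃ M : ℝ, ∀ x : E, M < ‖x‖ → c < w x := by
  have h := W.outer
  rw [← Metric.cobounded_eq_cocompact] at h
  obtain ⟨M, hM⟩ := (Metric.hasBasis_cobounded_compl_closedBall (0 : E)).eventually_iff.1 h
  refine ⟨M, fun x hx => hM.2 ?_⟩
  rw [mem_compl_iff, mem_closedBall_zero_iff, not_le]
  exact hx

theorem RadialFn.separates (W : RadialFn w c) : Separates {0} ({0}ᶜ ∩ {x | w x < c}) where
  isOpen := W.smooth.continuousOn.isOpen_inter_preimage isOpen_compl_singleton isOpen_Iio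
  sub := inter_subset_left
  smooth := by
    intro x hx hx0
    have hx0' : x ≠ 0 := hx0
    have hc := W.contAt hx0'
    have hopen : IsOpen ({0}ᶜ ∩ {x : E | w x < c}) :=
      W.smooth.continuousOn.isOpen_inter_preimage isOpen_compl_singleton isOpen_Iio
    have h1 : ¬ w x < c := by
      intro h
      have h2 : x ∈ ({0}ᶜ ∩ {x : E | w x < c}) := ⟨hx0', h⟩
      rw [frontier, hopen.interior_eq] at hx
      exact hx.2 h2
    have h3 : ¬ c < w x := by
      intro h
      have h4 : ∀ᶠ y in 𝓝 x, c < w y := hc.eventually_const_lt h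
      have h5 : x ∈ closure ({0}ᶜ ∩ {x : E | w x < c}) := hx.1
      rw [mem_closure_iff_frequently] at h5
      obtain ⟨y, hy1, hy2⟩ := (h5.and_eventually h4).exists
      exact lt_asymm hy1.2 hy2
    have h6 : w x = c := le_antisymm (not_lt.1 h3) (not_lt.1 h1)
    refine ⟨fun y => w y - c, ?_, ?_, ?_, ?_⟩
    · exact (W.smooth.contDiffAt (isOpen_compl_singleton.mem_nhds hx0')).sub contDiffAt_const
    · simp [h6]
    · intro h
      have h7 := W.incr x hx0'
      rw [fderiv_sub_const] at h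
      rw [h] at h7
      simp at h7
    · filter_upwards [isOpen_compl_singleton.mem_nhds (show x ∈ ({0}ᶜ : Set E) from hx0')] with y hy
      constructor
      · rintro ⟨_, h8⟩
        have h8 : w y < c := h8
        linarith
      · intro h8
        exact ⟨hy, show w y < c by linarith⟩
  inner := by
    rintro p rfl
    obtain ⟨δ, hδ, h⟩ := W.exists_inner
    refine ⟨δ, hδ, fun x hx => ⟨hx.2, ?_⟩⟩
    exact h x hx.2 (by simpa using hx.1)
  outer := by
    rintro ⟨R, hR⟩
    obtain ⟨M, hM⟩ := W.exists_outer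
    set e : E := EuclideanSpace.single 0 1 with he
    have hen : ‖e‖ = 1 := by simp [he]
    have hpos : 0 < |M| + 1 + |R| := by
      have := abs_nonneg M
      have := abs_nonneg R
      linarith
    have h1 : (|M| + 1 + |R|) • e ∈ {x : E | R < ‖x‖} := by
      rw [mem_ofPred_eq, ray_norm hen hpos]
      have := le_abs_self R
      have := abs_nonneg M
      linarith
    have h2 : w _ < c := (hR h1).2
    have h3 := hM ((|M| + 1 + |R|) • e) (by
      rw [ray_norm hen hpos]
      have := le_abs_self M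
      have := abs_nonneg R
      linarith)
    exact lt_asymm h2 h3

/-- The area of the level set, bounded by the maximum of the area radius `R`. -/
theorem RadialFn.leastArea_le (W : RadialFn w c) {G : E → Matrix (Fin 3) (Fin 3) ℝ}
    (hG : ContDiffOn ℝ 1 (fun x => Real.sqrt (G x).det) {0}ᶜ) {R : E → ℝ}
    (hR : ContinuousOn R {0}ᶜ) (hR0 : ∀ x : E, x ≠ 0 → 0 ≤ R x)
    (hb : ∀ x : E, x ≠ 0 → ∀ v : E, quad (G x) v ≤ 1 →
      Real.sqrt (G x).det * |fderiv ℝ w x v| * ‖x‖ ^ 3 ≤ (R x) ^ 2 * |fderiv ℝ w x x|)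
    {ρ₀ : ℝ} (hle : ∀ x : E, x ≠ 0 → w x = c → R x ≤ ρ₀) :
    leastArea {0} G ≤ ENNReal.ofReal (4 * Real.pi * ρ₀ ^ 2) := by
  unfold leastArea
  refine (iInf₂_le _ W.separates).trans ?_
  refine area_sublevel_le hG (W.smooth.of_le (by exact_mod_cast le_top))
    (fun x hx => (W.incr x hx).le) ?_ (by positivity)
  intro B' hB' a b ha hab
  set K : Set E := {x | (a ≤ ‖x‖ ∧ ‖x‖ ≤ b) ∧ (w x ≤ c ∧ B' ≤ (R x) ^ 2)} with hK
  have hann : IsCompact {x : E | a ≤ ‖x‖ ∧ ‖x‖ ≤ b} := by
    refine (isCompact_closedBall (0 : E) b).of_isClosed_subset ?_ fun x hx => by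
      rw [mem_closedBall_zero_iff]; exact hx.2
    exact (isClosed_le continuous_const continuous_norm).inter
      (isClosed_le continuous_norm continuous_const)
  have hann0 : {x : E | a ≤ ‖x‖ ∧ ‖x‖ ≤ b} ⊆ {0}ᶜ := fun x hx hx0 => by
    have h1 : a ≤ ‖x‖ := hx.1
    rw [show x = 0 from hx0, norm_zero] at h1
    linarith
  have hwc : ContinuousOn w {x : E | a ≤ ‖x‖ ∧ ‖x‖ ≤ b} := W.smooth.continuousOn.mono hann0
  have hRc : ContinuousOn (fun x => (R x) ^ 2) {x : E | a ≤ ‖x‖ ∧ ‖x‖ ≤ b} :=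
    (hR.mono hann0).pow 2
  have hKc : IsCompact K := by
    have h1 : K = {x : E | a ≤ ‖x‖ ∧ ‖x‖ ≤ b} ∩ ((fun x => (w x, (R x) ^ 2)) ⁻¹'
        (Iic c ×ˢ Ici B')) := by
      ext x
      rfl
    have h2 : IsClosed ({x : E | a ≤ ‖x‖ ∧ ‖x‖ ≤ b} ∩ ((fun x => (w x, (R x) ^ 2)) ⁻¹'
        (Iic c ×ˢ Ici B'))) :=
      (hwc.prodMk hRc).preimage_isClosed_of_isClosed hann.isClosed (isClosed_Iic.prod isClosed_Ici)
    rw [h1]
    exact hann.of_isClosed_subset h2 inter_subset_left
  obtain ⟨ε₀, hε₀, hε⟩ : ∃ ε₀ > 0, ∀ x : E, a ≤ ‖x‖ → ‖x‖ ≤ b → c - ε₀ ≤ w x → w x ≤ c →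
      (R x) ^ 2 ≤ B' := by
    rcases K.eq_empty_or_nonempty with he | hne
    · refine ⟨1, one_pos, fun x h1 h2 _ h4 => ?_⟩
      by_contra h5
      have : x ∈ K := ⟨⟨h1, h2⟩, h4, (not_le.1 h5).le⟩
      rw [he] at this
      exact this
    · obtain ⟨y, hy, hmax⟩ := hKc.exists_isMaxOn hne (hwc.mono fun x hx => hx.1)
      have hy0 : y ≠ 0 := hann0 hy.1
      have h1 : w y < c := by
        refine lt_of_le_of_ne hy.2.1 fun h => ?_
        have h2 := hle y hy0 h
        have h3 : (R y) ^ 2 ≤ ρ₀ ^ 2 := pow_le_pow_left₀ (hR0 y hy0) h2 2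
        linarith [hy.2.2]
      refine ⟨(c - w y) / 2, by linarith, fun x h2 h3 h4 h5 => ?_⟩
      by_contra h6
      have h7 : x ∈ K := ⟨⟨h2, h3⟩, h5, (not_le.1 h6).le⟩
      have h8 : w x ≤ w y := hmax h7
      linarith
  refine ⟨ε₀, hε₀, fun x h1 h2 h3 h4 v hv => ?_⟩
  have hx0 : x ≠ 0 := hann0 ⟨h1, h2⟩
  have h5 := hb x hx0 v hv
  rw [abs_of_pos (W.incr x hx0)] at h5
  calc Real.sqrt (G x).det * fderiv ℝ w x v * ‖x‖ ^ 3 ≤
        Real.sqrt (G x).det * |fderiv ℝ w x v| * ‖x‖ ^ 3 := by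
        have := le_abs_self (fderiv ℝ w x v)
        gcongr
    _ ≤ (R x) ^ 2 * fderiv ℝ w x x := h5
    _ ≤ B' * fderiv ℝ w x x :=
        mul_le_mul_of_nonneg_right (hε x h1 h2 h3 h4) (W.incr x hx0).le

/-! ### connectedness of the level set -/

theorem RadialFn.hasDerivAt_ray (W : RadialFn w c) {ω : E} (hω : ‖ω‖ = 1) {s : ℝ} (hs : 0 < s) :
    HasDerivAt (fun s : ℝ => w (s • ω)) (fderiv ℝ w (s • ω) ω) s := by
  have h1 : HasDerivAt (fun s : ℝ => s • ω) ω s := by
    simpa using (hasDerivAt_id s).smul_const ω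
  have h2 : DifferentiableAt ℝ w (s • ω) :=
    (W.smooth.contDiffAt (isOpen_compl_singleton.mem_nhds (ray_ne hω hs))).differentiableAt
      (by simp)
  exact h2.hasFDerivAt.comp_hasDerivAt s h1

theorem RadialFn.strictMono_ray (W : RadialFn w c) {ω : E} (hω : ‖ω‖ = 1) :
    StrictMonoOn (fun s : ℝ => w (s • ω)) (Ioi 0) := by
  refine strictMonoOn_of_deriv_pos (convex_Ioi 0) ?_ ?_
  · intro s hs
    exact (W.hasDerivAt_ray hω hs).continuousAt.continuousWithinAt
  · intro s hs
    rw [interior_Ioi] at hs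
    have hs : 0 < s := hs
    rw [(W.hasDerivAt_ray hω hs).deriv]
    have h1 := W.incr (s • ω) (ray_ne hω hs)
    rw [map_smul, smul_eq_mul] at h1
    exact (mul_pos_iff_of_pos_left hs).1 h1

theorem RadialFn.exists_radius (W : RadialFn w c) (ω : Metric.sphere (0 : E) 1) :
    ∃ s : ℝ, 0 < s ∧ w (s • (ω : E)) = c := by
  have hω := sphere_norm ω
  obtain ⟨δ, hδ, h1⟩ := W.exists_inner
  obtain ⟨M, hM⟩ := W.exists_outer
  set a := δ / 2
  set b := max (|M| + 1) a
  have ha : 0 < a := by positivity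
  have hab : a ≤ b := le_max_right _ _
  have h2 : w (a • (ω : E)) < c := h1 _ (ray_ne hω ha) (by rw [ray_norm hω ha]; exact half_lt_self hδ)
  have h3 : c < w (b • (ω : E)) := hM _ (by
    rw [ray_norm hω (ha.trans_le hab)]
    calc M ≤ |M| := le_abs_self M
      _ < |M| + 1 := by linarith
      _ ≤ b := le_max_left _ _)
  have h4 : ContinuousOn (fun s : ℝ => w (s • (ω : E))) (Icc a b) := fun s hs =>
    (W.hasDerivAt_ray hω (ha.trans_le hs.1)).continuousAt.continuousWithinAt
  obtain ⟨s, hs, h5⟩ := intermediate_value_Icc hab h4 ⟨h2.le, h3.le⟩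
  exact ⟨s, ha.trans_le hs.1, h5⟩

theorem RadialFn.level_preconnected (W : RadialFn w c) :
    IsPreconnected {x : E | x ≠ 0 ∧ w x = c} := by
  choose τ hτ0 hτ using W.exists_radius
  have hcont : Continuous τ := by
    rw [continuous_iff_continuousAt]
    intro ω₀
    have hk : ∀ a : ℝ, 0 < a → ContinuousAt (fun ω : Metric.sphere (0 : E) 1 => w (a • (ω : E))) ω₀ :=
      fun a ha => ContinuousAt.comp (f := fun ω : Metric.sphere (0 : E) 1 => a • (ω : E))
        (W.contAt (ray_ne (sphere_norm ω₀) ha)) (by fun_prop)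
    refine tendsto_order.2 ⟨fun a ha => ?_, fun a ha => ?_⟩
    · rcases le_or_gt a 0 with h | h
      · exact Eventually.of_forall fun ω => h.trans_lt (hτ0 ω)
      · have h1 : w (a • (ω₀ : E)) < c := by
          rw [← hτ ω₀]
          exact W.strictMono_ray (sphere_norm ω₀) h (hτ0 ω₀) ha
        filter_upwards [(hk a h).eventually_lt_const h1] with ω hω
        by_contra h2
        have h3 := (W.strictMono_ray (sphere_norm ω)).monotoneOn (hτ0 ω) h (not_lt.1 h2)
        rw [hτ ω] at h3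
        linarith
    · have h : 0 < a := (hτ0 ω₀).trans ha
      have h1 : c < w (a • (ω₀ : E)) := by
        rw [← hτ ω₀]
        exact W.strictMono_ray (sphere_norm ω₀) (hτ0 ω₀) h ha
      filter_upwards [(hk a h).eventually_const_lt h1] with ω hω
      by_contra h2
      have h3 := (W.strictMono_ray (sphere_norm ω)).monotoneOn h (hτ0 ω) (not_lt.1 h2)
      rw [hτ ω] at h3
      linarith
  have h1 : {x : E | x ≠ 0 ∧ w x = c} =
      (fun ω : Metric.sphere (0 : E) 1 => τ ω • (ω : E)) '' univ := by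
    ext x
    constructor
    · rintro ⟨hx, hxc⟩
      have hn : 0 < ‖x‖ := norm_pos_iff.2 hx
      set ω : Metric.sphere (0 : E) 1 := ⟨‖x‖⁻¹ • x, by
        rw [mem_sphere_zero_iff_norm, norm_smul, norm_inv, norm_norm, inv_mul_cancel₀ hn.ne']⟩
        with hω
      refine ⟨ω, mem_univ _, ?_⟩
      have h2 : x = ‖x‖ • (ω : E) := by
        rw [hω]
        simp only
        rw [smul_smul, mul_inv_cancel₀ hn.ne', one_smul]
      have h3 : τ ω = ‖x‖ := by
        refine (W.strictMono_ray (sphere_norm ω)).injOn (hτ0 ω) hn ?_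
        rw [hτ ω, ← h2, hxc]
      simp only
      rw [h3, ← h2]
    · rintro ⟨ω, _, rfl⟩
      exact ⟨ray_ne (sphere_norm ω) (hτ0 ω), hτ ω⟩
  rw [h1]
  have : PreconnectedSpace (Metric.sphere (0 : E) 1) := by
    rw [← isPreconnected_iff_preconnectedSpace]
    refine isPreconnected_sphere ?_ 0 1
    rw [rank_eq_card_basis (EuclideanSpace.basisFun (Fin 3) ℝ).toBasis]
    simp
  exact isPreconnected_univ.image _ (hcont.smul continuous_subtype_val).continuousOn

/-! ### Raychaudhuri's equation along a null line -/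

theorem null_line {I : Set ℝ} (hI : I.OrdConnected) {ρ κ κ' e : ℝ → ℝ}
    (he : ∀ t ∈ I, 0 < e t) (hρ : ∀ t ∈ I, HasDerivAt ρ (e t * κ t) t)
    (hκ : ∀ t ∈ I, HasDerivAt κ (κ' t) t) (hκ' : ∀ t ∈ I, κ' t ≤ 0) {t₀ : ℝ} (h0 : t₀ ∈ I)
    (hz : κ t₀ = 0) {t : ℝ} (ht : t ∈ I) : ρ t ≤ ρ t₀ := by
  have hanti : AntitoneOn κ I := by
    refine antitoneOn_of_deriv_nonpos hI.convex
      (fun s hs => (hκ s hs).continuousAt.continuousWithinAt)
      (fun s hs => (hκ s (interior_subset hs)).differentiableAt.differentiableWithinAt)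
      fun s hs => ?_
    rw [(hκ s (interior_subset hs)).deriv]
    exact hκ' s (interior_subset hs)
  rcases le_total t₀ t with h | h
  · have hsub : Icc t₀ t ⊆ I := hI.out h0 ht
    have h1 : AntitoneOn ρ (Icc t₀ t) := by
      refine antitoneOn_of_deriv_nonpos (convex_Icc _ _)
        (fun s hs => (hρ s (hsub hs)).continuousAt.continuousWithinAt)
        (fun s hs => (hρ s (hsub (interior_subset hs))).differentiableAt.differentiableWithinAt)
        fun s hs => ?_
      have hs' := interior_subset hs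
      rw [(hρ s (hsub hs')).deriv]
      refine mul_nonpos_of_nonneg_of_nonpos (he s (hsub hs')).le ?_
      rw [← hz]
      exact hanti h0 (hsub hs') hs'.1
    exact h1 (left_mem_Icc.2 h) (right_mem_Icc.2 h) h
  · have hsub : Icc t t₀ ⊆ I := hI.out ht h0
    have h1 : MonotoneOn ρ (Icc t t₀) := by
      refine monotoneOn_of_deriv_nonneg (convex_Icc _ _)
        (fun s hs => (hρ s (hsub hs)).continuousAt.continuousWithinAt)
        (fun s hs => (hρ s (hsub (interior_subset hs))).differentiableAt.differentiableWithinAt)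
        fun s hs => ?_
      have hs' := interior_subset hs
      rw [(hρ s (hsub hs')).deriv]
      refine mul_nonneg (he s (hsub hs')).le ?_
      rw [← hz]
      exact hanti (hsub hs') h0 hs'.2
    exact h1 (left_mem_Icc.2 h) (right_mem_Icc.2 h) h

end Pool.Agent.V8H95.PI
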