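import Pool.Agent.V8H95.PI.Curve

/-!
# Spherically symmetric spacetimes in double null coordinates

The metric is `-Ω² du dv + r² dω²` on `Q × S²`, with `Q ⊆ ℝ²` open.
-/

set_option autoImplicit false

namespace Pool.Agent.V8H95.PI

open Pool.Agent.K4H63.PI
open scoped BigOperators Topology ENNReal
open Matrix Filter Set MeasureTheory

/-- The partial derivative `∂_u` of a function of the double null coordinates `(u, v)`. -/
noncomputable def pu (f : ℝ × ℝ → ℝ) (p : ℝ × ℝ) : ℝ := fderiv ℝ f p (1, 0)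

/-- The partial derivative `∂_v` of a function of the double null coordinates `(u, v)`. -/
noncomputable def pv (f : ℝ × ℝ → ℝ) (p : ℝ × ℝ) : ℝ := fderiv ℝ f p (0, 1)

/-- The component `G_uu = -(2/r) Ω² ∂_u (Ω⁻² ∂_u r)` of the Einstein tensor of
`-Ω² du dv + r² dω²`. -/
noncomputable def einUU (Ω r : ℝ × ℝ → ℝ) (p : ℝ × ℝ) : ℝ :=
  -(2 / r p) * (Ω p) ^ 2 * pu (fun q => pu r q / (Ω q) ^ 2) p

/-- The component `G_vv = -(2/r) Ω² ∂_v (Ω⁻² ∂_v r)` of the Einstein tensor of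
`-Ω² du dv + r² dω²`. -/
noncomputable def einVV (Ω r : ℝ × ℝ → ℝ) (p : ℝ × ℝ) : ℝ :=
  -(2 / r p) * (Ω p) ^ 2 * pv (fun q => pv r q / (Ω q) ^ 2) p

/-- The component `G_uv = (2/r) ∂_u ∂_v r + (2/r²) (Ω²/4 + ∂_u r ∂_v r)` of the Einstein tensor of
`-Ω² du dv + r² dω²`. -/
noncomputable def einUV (Ω r : ℝ × ℝ → ℝ) (p : ℝ × ℝ) : ℝ :=
  2 / r p * pu (pv r) p + 2 / (r p) ^ 2 * ((Ω p) ^ 2 / 4 + pu r p * pv r p)

/-- A spherically symmetric spacetime `Q × S²` with the `C²` metric `-Ω² du dv + r² dω²` in double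
null coordinates: `Q ⊆ ℝ²` is open, and the area radius `r` and `Ω` are positive. -/
structure Spacetime (Q : Set (ℝ × ℝ)) (Ω r : ℝ × ℝ → ℝ) : Prop where
  isOpen : IsOpen Q
  smooth_lapse : ContDiffOn ℝ 2 Ω Q
  smooth_radius : ContDiffOn ℝ 2 r Q
  lapse_pos : ∀ p ∈ Q, 0 < Ω p
  radius_pos : ∀ p ∈ Q, 0 < r p

/-- The Misner–Sharp mass `(r/2) (1 + 4 Ω⁻² ∂_u r ∂_v r)`. -/
noncomputable def msMass (Ω r : ℝ × ℝ → ℝ) (p : ℝ × ℝ) : ℝ :=
  r p / 2 * (1 + 4 * (pu r p * pv r p) / (Ω p) ^ 2)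

section

variable {Q : Set (ℝ × ℝ)} {Ω r : ℝ × ℝ → ℝ} {p : ℝ × ℝ}

theorem Spacetime.nhds (S : Spacetime Q Ω r) (hp : p ∈ Q) : Q ∈ 𝓝 p := S.isOpen.mem_nhds hp

theorem Spacetime.r2 (S : Spacetime Q Ω r) (hp : p ∈ Q) : ContDiffAt ℝ 2 r p :=
  S.smooth_radius.contDiffAt (S.nhds hp)

theorem Spacetime.Ω2 (S : Spacetime Q Ω r) (hp : p ∈ Q) : ContDiffAt ℝ 2 Ω p :=
  S.smooth_lapse.contDiffAt (S.nhds hp)

theorem dir_contDiffAt {f : ℝ × ℝ → ℝ} (hf : ContDiffAt ℝ 2 f p) (e : ℝ × ℝ) :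
    ContDiffAt ℝ 1 (fun q => fderiv ℝ f q e) p :=
  (hf.fderiv_right (m := 1) (by norm_num)).clm_apply contDiffAt_const

theorem dir_symm {f : ℝ × ℝ → ℝ} (hf : ContDiffAt ℝ 2 f p) (e e' : ℝ × ℝ) :
    fderiv ℝ (fun q => fderiv ℝ f q e) p e' = fderiv ℝ (fun q => fderiv ℝ f q e') p e := by
  have h1 : DifferentiableAt ℝ (fderiv ℝ f) p :=
    (hf.fderiv_right (m := 1) (by norm_num)).differentiableAt (by norm_num)
  have h2 : ∀ e e' : ℝ × ℝ, fderiv ℝ (fun q => fderiv ℝ f q e) p e' =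
      fderiv ℝ (fderiv ℝ f) p e' e := by
    intro e e'
    have h3 := h1.hasFDerivAt.clm_apply (hasFDerivAt_const e p)
    rw [h3.fderiv]
    simp
  rw [h2, h2]
  exact hf.isSymmSndFDerivAt (by simp) e' e

theorem Spacetime.pu_contDiffAt (S : Spacetime Q Ω r) (hp : p ∈ Q) : ContDiffAt ℝ 1 (pu r) p :=
  dir_contDiffAt (S.r2 hp) (1, 0)

theorem Spacetime.pv_contDiffAt (S : Spacetime Q Ω r) (hp : p ∈ Q) : ContDiffAt ℝ 1 (pv r) p :=
  dir_contDiffAt (S.r2 hp) (0, 1)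

theorem Spacetime.puΩ (S : Spacetime Q Ω r) (hp : p ∈ Q) :
    ContDiffAt ℝ 1 (fun q => pu r q / (Ω q) ^ 2) p :=
  (S.pu_contDiffAt hp).div (((S.Ω2 hp).of_le (by norm_num)).pow 2)
    (pow_ne_zero 2 (S.lapse_pos p hp).ne')

theorem Spacetime.pvΩ (S : Spacetime Q Ω r) (hp : p ∈ Q) :
    ContDiffAt ℝ 1 (fun q => pv r q / (Ω q) ^ 2) p :=
  (S.pv_contDiffAt hp).div (((S.Ω2 hp).of_le (by norm_num)).pow 2)
    (pow_ne_zero 2 (S.lapse_pos p hp).ne')

theorem Spacetime.ms_contDiffAt (S : Spacetime Q Ω r) (hp : p ∈ Q) :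
    ContDiffAt ℝ 1 (msMass Ω r) p := by
  unfold msMass
  exact (((S.r2 hp).of_le (by norm_num)).div_const 2).mul (contDiffAt_const.add
    ((contDiffAt_const.mul ((S.pu_contDiffAt hp).mul (S.pv_contDiffAt hp))).div
      (((S.Ω2 hp).of_le (by norm_num)).pow 2) (pow_ne_zero 2 (S.lapse_pos p hp).ne')))

theorem Spacetime.pu_msMass (S : Spacetime Q Ω r) (hp : p ∈ Q) :
    pu (msMass Ω r) p = (r p) ^ 2 / (Ω p) ^ 2 *
      (pu r p * einUV Ω r p - pv r p * einUU Ω r p) := by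
  have hΩ := S.lapse_pos p hp
  have hr := S.radius_pos p hp
  have h1 : HasFDerivAt r (fderiv ℝ r p) p := ((S.r2 hp).differentiableAt (by norm_num)).hasFDerivAt
  have h2 := ((S.puΩ hp).differentiableAt (by norm_num)).hasFDerivAt
  have h3 := ((S.pv_contDiffAt hp).differentiableAt (by norm_num)).hasFDerivAt
  have h4 := (h1.mul_const (1/2)).add ((h1.mul (h2.mul h3)).const_mul 2)
  have h5 := h4.congr_of_eventuallyEq (f₁ := msMass Ω r) (Eventually.of_forall fun q => by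
    simp only [Pi.add_apply, Pi.mul_apply]
    unfold msMass
    ring)
  have h6 : pu (msMass Ω r) p = 1 / 2 * pu r p + 2 * (r p * ((pu r p / (Ω p) ^ 2) * pu (pv r) p +
      pv r p * pu (fun q => pu r q / (Ω q) ^ 2) p) + (pu r p / (Ω p) ^ 2 * pv r p) * pu r p) := by
    have h7 : pu (msMass Ω r) p = _ := congrArg (fun L => L ((1 : ℝ), (0 : ℝ))) h5.fderiv
    rw [h7]
    simp only [_root_.add_apply, _root_.smul_apply, smul_eq_mul, Pi.mul_apply]
    rfl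
  rw [h6]
  unfold einUV einUU
  field_simp
  ring

theorem Spacetime.pv_msMass (S : Spacetime Q Ω r) (hp : p ∈ Q) :
    pv (msMass Ω r) p = (r p) ^ 2 / (Ω p) ^ 2 *
      (pv r p * einUV Ω r p - pu r p * einVV Ω r p) := by
  have hΩ := S.lapse_pos p hp
  have hr := S.radius_pos p hp
  have h1 : HasFDerivAt r (fderiv ℝ r p) p := ((S.r2 hp).differentiableAt (by norm_num)).hasFDerivAt
  have h2 := ((S.pvΩ hp).differentiableAt (by norm_num)).hasFDerivAt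
  have h3 := ((S.pu_contDiffAt hp).differentiableAt (by norm_num)).hasFDerivAt
  have h4 := (h1.mul_const (1/2)).add ((h1.mul (h2.mul h3)).const_mul 2)
  have h5 := h4.congr_of_eventuallyEq (f₁ := msMass Ω r) (Eventually.of_forall fun q => by
    simp only [Pi.add_apply, Pi.mul_apply]
    unfold msMass
    ring)
  have h8 : pv (pu r) p = pu (pv r) p := dir_symm (S.r2 hp) (1, 0) (0, 1)
  have h6 : pv (msMass Ω r) p = 1 / 2 * pv r p + 2 * (r p * ((pv r p / (Ω p) ^ 2) * pv (pu r) p +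
      pu r p * pv (fun q => pv r q / (Ω q) ^ 2) p) + (pv r p / (Ω p) ^ 2 * pu r p) * pv r p) := by
    have h7 : pv (msMass Ω r) p = _ := congrArg (fun L => L ((0 : ℝ), (1 : ℝ))) h5.fderiv
    rw [h7]
    simp only [_root_.add_apply, _root_.smul_apply, smul_eq_mul, Pi.mul_apply]
    rfl
  rw [h6, h8]
  unfold einUV einVV
  field_simp
  ring

end

end Pool.Agent.V8H95.PI
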