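import Pool.Agent.K4H63.PI.Peak
import Pool.Agent.K4H63.PI.Main3

/-!
# De Giorgi area of the boundary of a region in `(ℝ³ ∖ F, G)` and the least area needed to
separate the other ends from the end at infinity
-/

set_option autoImplicit false

namespace Pool.Agent.V8H95.PI

open Pool.Agent.K4H63.PI
open scoped BigOperators Topology ENNReal
open Matrix Filter Set MeasureTheory

/-- The square of the length of the vector `v` in the inner product `M`. -/
noncomputable def quad (M : Matrix (Fin 3) (Fin 3) ℝ) (v : E) : ℝ :=
  ∑ i, ∑ j, M i j * v i * v j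

/-- A `C¹` vector field with compact support in `ℝ³ ∖ F`, of `G`-length at most one. -/
structure TestField (F : Set E) (G : E → Matrix (Fin 3) (Fin 3) ℝ) (X : E → E) : Prop where
  smooth : ContDiff ℝ 1 X
  compact : HasCompactSupport X
  away : tsupport X ⊆ Fᶜ
  unit : ∀ x, x ∉ F → quad (G x) (X x) ≤ 1

/-- The divergence of `X` in the metric `G` times the volume density: `∂_i (√det G X^i)`. -/
noncomputable def divg (G : E → Matrix (Fin 3) (Fin 3) ℝ) (X : E → E) (x : E) : ℝ :=
  ∑ i, pd i (fun y => Real.sqrt (G y).det * X y i) x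

/-- The area (De Giorgi perimeter) of the boundary of `U` in the Riemannian manifold
`(ℝ³ ∖ F, G)`: the supremum of `∫_U div_G X dvol_G` over the test fields `X`. For `U` with smooth
boundary it is the area of the boundary. -/
noncomputable def area (F : Set E) (G : E → Matrix (Fin 3) (Fin 3) ℝ) (U : Set E) : ℝ≥0∞ :=
  ⨆ (X : E → E) (_ : TestField F G X), ENNReal.ofReal (∫ x in U, divg G X x)

/-- `U` is an open subset of `M = ℝ³ ∖ F` with smooth boundary which contains the ends at the
points of `F` and does not contain the end at infinity. -/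
structure Separates (F U : Set E) : Prop where
  isOpen : IsOpen U
  sub : U ⊆ Fᶜ
  smooth : ∀ x ∈ frontier U, x ∉ F → ∃ f : E → ℝ, ContDiffAt ℝ (⊤ : ℕ∞) f x ∧ f x = 0 ∧
    fderiv ℝ f x ≠ 0 ∧ ∀ᶠ y in 𝓝 x, (y ∈ U ↔ f y < 0)
  inner : ∀ p ∈ F, ∃ ε > 0, Metric.ball p ε \ F ⊆ U
  outer : ¬ ∃ R : ℝ, {x : E | R < ‖x‖} ⊆ U

/-- The infimum of the areas of the boundaries of the open regions with smooth boundary in
`(ℝ³ ∖ F, G)` which contain the ends at the points of `F` but not the end at infinity. -/
noncomputable def leastArea (F : Set E) (G : E → Matrix (Fin 3) (Fin 3) ℝ) : ℝ≥0∞ :=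
  ⨅ (U : Set E) (_ : Separates F U), area F G U

/-! ### the area of a sublevel set -/

theorem smoothTransition_deriv_nonneg (t : ℝ) : 0 ≤ deriv Real.smoothTransition t :=
  Real.smoothTransition.monotone.deriv_nonneg

theorem smoothTransition_deriv_zero {t : ℝ} (h : t ≤ 0 ∨ 1 ≤ t) :
    deriv Real.smoothTransition t = 0 := by
  rcases h with h | h
  · have hmin : IsLocalMin Real.smoothTransition t := by
      refine Eventually.of_forall fun y => ?_
      rw [Real.smoothTransition.zero_of_nonpos h]
      exact Real.smoothTransition.nonneg y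
    exact hmin.deriv_eq_zero
  · have hmax : IsLocalMax Real.smoothTransition t := by
      refine Eventually.of_forall fun y => ?_
      rw [Real.smoothTransition.one_of_one_le h]
      exact Real.smoothTransition.le_one y
    exact hmax.deriv_eq_zero

section Field

variable {G : E → Matrix (Fin 3) (Fin 3) ℝ} {X : E → E}

theorem TestField.comp_diff (hX : TestField {0} G X) (i : Fin 3) :
    ContDiff ℝ 1 (fun x => X x i) :=
  (pr i).contDiff.comp hX.smooth

theorem tsupport_comp (i : Fin 3) : tsupport (fun x => X x i) ⊆ tsupport X := by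
  refine closure_mono fun x hx => ?_
  rw [Function.mem_support] at hx ⊢
  intro h
  apply hx
  rw [h]
  rfl

/-- `Y = √det G · X`, a `C¹` field on `ℝ³`. -/
theorem dens_contDiff (hG : ContDiffOn ℝ 1 (fun x => Real.sqrt (G x).det) {0}ᶜ)
    (hX : TestField {0} G X) (i : Fin 3) :
    ContDiff ℝ 1 (fun x => Real.sqrt (G x).det * X x i) := by
  rw [contDiff_iff_contDiffAt]
  intro x
  by_cases hx : x ∈ tsupport X
  · have hx0 : x ∈ ({0}ᶜ : Set E) := hX.away hx
    exact (hG.contDiffAt (isOpen_compl_singleton.mem_nhds hx0)).mul
      (hX.comp_diff i).contDiffAt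
  · have h1 : (fun y => Real.sqrt (G y).det * X y i) =ᶠ[𝓝 x] fun _ => 0 := by
      have h2 := notMem_tsupport_iff_eventuallyEq.1 hx
      filter_upwards [h2] with y hy
      rw [hy]
      simp
    exact contDiffAt_const.congr_of_eventuallyEq h1

theorem dens_tsupport (i : Fin 3) :
    tsupport (fun x => Real.sqrt (G x).det * X x i) ⊆ tsupport X :=
  tsupport_mul_subset_right.trans (tsupport_comp i)

theorem dens_compact (hX : TestField {0} G X) (i : Fin 3) :
    HasCompactSupport (fun x => Real.sqrt (G x).det * X x i) :=
  hX.compact.of_isClosed_subset (isClosed_tsupport _) (dens_tsupport i)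

theorem pd_contDiff {f : E → ℝ} (hf : ContDiff ℝ 1 f) (i : Fin 3) : Continuous (pd i f) := by
  unfold pd
  exact (hf.continuous_fderiv (by norm_num)).clm_apply continuous_const

theorem pd_tsupport {f : E → ℝ} (i : Fin 3) : tsupport (pd i f) ⊆ tsupport f := by
  refine closure_minimal (fun x hx => ?_) (isClosed_tsupport f)
  by_contra h
  apply hx
  have h2 := notMem_tsupport_iff_eventuallyEq.1 h
  rw [pd_congr h2]
  unfold pd
  simp

theorem mul_cont {f g : E → ℝ} (hf : ContinuousOn f {0}ᶜ) (hg : Continuous g)
    (hs : tsupport g ⊆ {0}ᶜ) : Continuous (fun x => f x * g x) := by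
  rw [continuous_iff_continuousAt]
  intro x
  by_cases hx : x ∈ tsupport g
  · exact (hf.continuousAt (isOpen_compl_singleton.mem_nhds (hs hx))).mul hg.continuousAt
  · have h2 := notMem_tsupport_iff_eventuallyEq.1 hx
    have h1 : (fun y => f y * g y) =ᶠ[𝓝 x] fun _ => 0 := by
      filter_upwards [h2] with y hy
      rw [hy]
      simp
    exact continuousAt_const.congr h1.symm

theorem mul_integrable {f g : E → ℝ} (hf : ContinuousOn f {0}ᶜ) (hg : Continuous g)
    (hs : tsupport g ⊆ {0}ᶜ) (hc : HasCompactSupport g) :
    Integrable (fun x => f x * g x) volume :=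
  (mul_cont hf hg hs).integrable_of_hasCompactSupport hc.mul_left

theorem divg_cont (hG : ContDiffOn ℝ 1 (fun x => Real.sqrt (G x).det) {0}ᶜ)
    (hX : TestField {0} G X) : Continuous (divg G X) := by
  unfold divg
  exact continuous_finsetSum _ fun i _ => pd_contDiff (dens_contDiff hG hX i) i

theorem divg_support {x : E} (hx : x ∉ tsupport X) :
    divg G X x = 0 := by
  unfold divg
  refine Finset.sum_eq_zero fun i _ => ?_
  have h1 : x ∉ tsupport (pd i fun y => Real.sqrt (G y).det * X y i) :=
    fun h => hx (dens_tsupport i (pd_tsupport i h))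
  exact image_eq_zero_of_notMem_tsupport h1

theorem divg_compact (hX : TestField {0} G X) : HasCompactSupport (divg G X) :=
  HasCompactSupport.intro hX.compact fun _ hx => divg_support hx

/-- Integration by parts. -/
theorem integral_mul_divg (hG : ContDiffOn ℝ 1 (fun x => Real.sqrt (G x).det) {0}ᶜ)
    (hX : TestField {0} G X) {η : E → ℝ} (hη : ContDiffOn ℝ 1 η {0}ᶜ) :
    ∫ x, η x * divg G X x = -∫ x, Real.sqrt (G x).det * fderiv ℝ η x (X x) := by
  have hd : ∀ i : Fin 3, ∫ x, η x * pd i (fun y => Real.sqrt (G y).det * X y i) x =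
      -∫ x, pd i η x * (Real.sqrt (G x).det * X x i) := by
    intro i
    have hY := dens_contDiff hG hX i
    have hs : tsupport (fun x => Real.sqrt (G x).det * X x i) ⊆ {0}ᶜ :=
      (dens_tsupport i).trans hX.away
    exact integral_mul_fderiv_eq_neg_fderiv_mul_of_integrable (μ := (volume : Measure E))
      (f := η) (g := fun x => Real.sqrt (G x).det * X x i) (v := EuclideanSpace.single i 1)
      (mul_integrable (pd_cont hη i) hY.continuous hs (dens_compact hX i))
      (mul_integrable hη.continuousOn (pd_contDiff hY i)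
        ((pd_tsupport i).trans hs) ((dens_compact hX i).of_isClosed_subset
          (isClosed_tsupport _) (pd_tsupport i)))
      (mul_integrable hη.continuousOn hY.continuous hs (dens_compact hX i))
      (fun x hx => (hη.contDiffAt (isOpen_compl_singleton.mem_nhds (hs hx))).differentiableAt
        (by norm_num))
      (fun x _ => (hY.differentiable (by norm_num)).differentiableAt)
  have h1 : ∀ x, η x * divg G X x =
      ∑ i, η x * pd i (fun y => Real.sqrt (G y).det * X y i) x := fun x => by
    unfold divg
    rw [Finset.mul_sum]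
  have h2 : ∀ x, Real.sqrt (G x).det * fderiv ℝ η x (X x) =
      ∑ i, pd i η x * (Real.sqrt (G x).det * X x i) := fun x => by
    have hx : X x = ∑ i, X x i • EuclideanSpace.single i (1 : ℝ) := by
      ext j
      simp [Finset.sum_apply, Pi.single_apply]
    conv_lhs => rw [hx]
    rw [map_sum, Finset.mul_sum]
    refine Finset.sum_congr rfl fun i _ => ?_
    rw [map_smul, smul_eq_mul]
    unfold pd
    ring
  simp only [h1, h2]
  rw [integral_finsetSum _ fun i _ => ?_, integral_finsetSum _ fun i _ => ?_]
  · simp only [hd]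
    rw [Finset.sum_neg_distrib]
  · have hY := dens_contDiff hG hX i
    have hs : tsupport (fun x => Real.sqrt (G x).det * X x i) ⊆ {0}ᶜ :=
      (dens_tsupport i).trans hX.away
    exact mul_integrable (pd_cont hη i) hY.continuous hs (dens_compact hX i)
  · have hY := dens_contDiff hG hX i
    have hs : tsupport (fun x => Real.sqrt (G x).det * X x i) ⊆ {0}ᶜ :=
      (dens_tsupport i).trans hX.away
    exact mul_integrable hη.continuousOn (pd_contDiff hY i)
        ((pd_tsupport i).trans hs) ((dens_compact hX i).of_isClosed_subset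
          (isClosed_tsupport _) (pd_tsupport i))

end Field

end Pool.Agent.V8H95.PI
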