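import Pool.Agent.V8H95.PI.Curve

/-!
# Tensors with rotationally symmetric trace satisfy the averaged condition
-/

set_option autoImplicit false

namespace Pool.Agent.V8H95.PI

open Pool.Agent.K4H63.PI
open scoped BigOperators Topology ENNReal
open Matrix Filter Set MeasureTheory

theorem sphAvg_sq_le {F : E → ℝ} (hF : ContinuousOn F {0}ᶜ) {r : ℝ} (hr : 0 < r) :
    (sphAvg F r) ^ 2 ≤ sphAvg (fun x => (F x) ^ 2) r := by
  set c := sphAvg F r with hc
  have h1 := sphAvg_mono (F := fun _ => (0 : ℝ)) (G := fun x => (F x) ^ 2 + ((-2 * c) * F x + c ^ 2))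
    continuousOn_const ((hF.pow 2).add ((continuousOn_const.mul hF).add continuousOn_const)) hr
    (fun w _ => by nlinarith [sq_nonneg (F (r • w) - c)])
  rw [sphAvg_const, sphAvg_add (F := fun x => (F x) ^ 2) (G := fun x => (-2 * c) * F x + c ^ 2)
    (hF.pow 2) ((continuousOn_const.mul hF).add continuousOn_const) hr,
    sphAvg_add (F := fun x => (-2 * c) * F x) (G := fun _ => c ^ 2) (continuousOn_const.mul hF)
    continuousOn_const hr, sphAvg_mul, sphAvg_const, ← hc] at h1
  linarith

/-- If `tr_g h` is constant on a centred sphere, the averaged condition holds there. -/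
theorem avgCond_of_const {φ : ℝ → ℝ} (hφ : Good φ) {h : E → Matrix (Fin 3) (Fin 3) ℝ}
    (H : Tensor h) {r : ℝ} (hr : 0 < r)
    (hτ : ∃ τ, ∀ w : E, ‖w‖ = 1 → trg (metric φ) h (r • w) = τ) : AvgCond φ h r := by
  obtain ⟨τ, hτ⟩ := hτ
  have hp := hφ.pos _ hr
  rw [avgCond_iff hφ h hr]
  set T := (φ r) ^ 4 * τ with hT
  have cQ := H.qq_smooth.continuousOn
  have cA := H.hrad_smooth.continuousOn
  have cN := H.transverse_cont
  have h1 : ∀ w : E, ‖w‖ = 1 → hrad h (r • w) = T - qq h (r • w) := by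
    intro w hw
    have h2 := hτ w hw
    rw [trg_metric h (by rw [ray_norm hw hr]; exact hp.ne'), ray_norm hw hr] at h2
    have h3 : tr0 h (r • w) = T := by
      rw [hT, ← h2]
      field_simp
    unfold qq
    linarith
  have h2 : sphAvg (hrad h) r = T - sphAvg (qq h) r := by
    rw [sphAvg_congr (F := hrad h) (G := fun x => (fun _ => T) x - qq h x) h1,
      sphAvg_sub continuousOn_const cQ hr, sphAvg_const]
  have h3 : sphAvg (fun x => 2 * hrad h x * qq h x + (qq h x) ^ 2 / 2 - transverse h x) r ≤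
      sphAvg (fun x => (2 * T) * qq h x + (-3 / 2) * (qq h x) ^ 2) r := by
    refine sphAvg_mono ((((continuousOn_const.mul cA).mul cQ).add ((cQ.pow 2).div_const _)).sub cN)
      ((continuousOn_const.mul cQ).add (continuousOn_const.mul (cQ.pow 2))) hr fun w hw => ?_
    have h4 := transverse_nonneg h (ray_ne hw hr)
    have e1 := h1 w hw
    show 2 * hrad h (r • w) * qq h (r • w) + (qq h (r • w)) ^ 2 / 2 - transverse h (r • w) ≤
      (2 * T) * qq h (r • w) + (-3 / 2) * (qq h (r • w)) ^ 2
    rw [e1]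
    nlinarith
  refine h3.trans ?_
  rw [sphAvg_add (F := fun x => (2 * T) * qq h x) (G := fun x => (-3 / 2) * (qq h x) ^ 2)
    (continuousOn_const.mul cQ) (continuousOn_const.mul (cQ.pow 2)) hr, sphAvg_mul, sphAvg_mul, h2]
  have h5 := sphAvg_sq_le cQ hr
  nlinarith

end Pool.Agent.V8H95.PI
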