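import Pool.Agent.V8H95.PI.Null

/-!
# Spacelike hypersurfaces of spherically symmetric spacetimes
-/

set_option autoImplicit false

namespace Pool.Agent.V8H95.PI

open Pool.Agent.K4H63.PI
open scoped BigOperators Topology ENNReal
open Matrix Filter Set MeasureTheory

/-- The metric induced by `-Ω² du dv + r² dω²` on the hypersurface
`x ↦ (u(x), v(x), x / |x|)`, in the coordinates `x ∈ ℝ³ ∖ {0}`. -/
noncomputable def slice (Ω r : ℝ × ℝ → ℝ) (u v : E → ℝ) (x : E) : Matrix (Fin 3) (Fin 3) ℝ :=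
  Matrix.of fun i j =>
    (r (u x, v x)) ^ 2 / ‖x‖ ^ 2 * (kd i j - x i / ‖x‖ * (x j / ‖x‖)) -
    (Ω (u x, v x)) ^ 2 / 2 * (pd i u x * pd j v x + pd i v x * pd j u x)

/-- Pointwise form of the induced metric. -/
noncomputable def form (k s : ℝ) (n a b : Fin 3 → ℝ) : Matrix (Fin 3) (Fin 3) ℝ :=
  Matrix.of fun i j => k * (kd i j - n i * n j) - s * (a i * b j + b i * a j)

theorem slice_eq_form (Ω r : ℝ × ℝ → ℝ) (u v : E → ℝ) (x : E) :
    slice Ω r u v x = form ((r (u x, v x)) ^ 2 / ‖x‖ ^ 2) ((Ω (u x, v x)) ^ 2 / 2)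
      (fun i => x i / ‖x‖) (fun i => pd i u x) (fun i => pd i v x) := rfl

theorem form_comm (k s : ℝ) (n a b : Fin 3 → ℝ) : form k s n a b = form k s n b a := by
  unfold form
  ext i j
  simp only [Matrix.of_apply]
  ring

/-- The adjugate of a symmetric matrix. -/
noncomputable def adjv (M : Matrix (Fin 3) (Fin 3) ℝ) (a : Fin 3 → ℝ) : E :=
  WithLp.toLp 2 ![(M 1 1 * M 2 2 - M 1 2 * M 1 2) * a 0 + (M 0 2 * M 1 2 - M 0 1 * M 2 2) * a 1 +
      (M 0 1 * M 1 2 - M 0 2 * M 1 1) * a 2,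
    (M 0 2 * M 1 2 - M 0 1 * M 2 2) * a 0 + (M 0 0 * M 2 2 - M 0 2 * M 0 2) * a 1 +
      (M 0 1 * M 0 2 - M 0 0 * M 1 2) * a 2,
    (M 0 1 * M 1 2 - M 0 2 * M 1 1) * a 0 + (M 0 1 * M 0 2 - M 0 0 * M 1 2) * a 1 +
      (M 0 0 * M 1 1 - M 0 1 * M 0 1) * a 2]

/-- Cauchy–Schwarz for the adjugate. -/
theorem adj_cs {M : Matrix (Fin 3) (Fin 3) ℝ} (hs : ∀ i j, M i j = M j i)
    (hpos : ∀ w : E, 0 ≤ quad M w) (hdet : 0 < M.det) (a : Fin 3 → ℝ) (v : E) :
    M.det * (∑ i, a i * v i) ^ 2 ≤ (∑ i, a i * adjv M a i) * quad M v := by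
  have s1 := hs 1 0
  have s2 := hs 2 0
  have s3 := hs 2 1
  set D := M.det with hD
  set T := ∑ i, a i * adjv M a i with hT
  set P := ∑ i, a i * v i with hP
  have key : ∀ t : ℝ, 0 ≤ (D * T) * (t * t) + (-(2 * D * P)) * t + quad M v := by
    intro t
    have h1 := hpos (v - t • adjv M a)
    have h2 : quad M (v - t • adjv M a) = (D * T) * (t * t) + (-(2 * D * P)) * t + quad M v := by
      rw [hT, hP, hD, Matrix.det_fin_three]
      unfold quad adjv
      simp only [Fin.sum_univ_three, PiLp.sub_apply, PiLp.smul_apply, smul_eq_mul,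
        Matrix.cons_val_zero, Matrix.cons_val_one, Matrix.cons_val, s1, s2, s3]
      ring
    rw [h2] at h1
    exact h1
  have h3 := discrim_le_zero key
  unfold discrim at h3
  have h4 : D * (D * P ^ 2) ≤ D * (T * quad M v) := by nlinarith
  exact le_of_mul_le_mul_left h4 hdet

theorem form_adj (k s : ℝ) {n : Fin 3 → ℝ} (a b : Fin 3 → ℝ) (hn : ∑ i, n i ^ 2 = 1) :
    ∑ i, a i * adjv (form k s n a b) a i = k ^ 2 * (∑ i, n i * a i) ^ 2 := by
  unfold adjv form
  simp only [Fin.sum_univ_three] at hn ⊢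
  simp only [kd, Matrix.of_apply, Matrix.cons_val_zero, Matrix.cons_val_one, Matrix.cons_val,
    if_true, Fin.reduceEq, if_false]
  linear_combination (-(k ^ 2 * (a 0 ^ 2 + a 1 ^ 2 + a 2 ^ 2))) * hn

theorem det_pos_of_quad {M : Matrix (Fin 3) (Fin 3) ℝ} (hs : ∀ i j, M i j = M j i)
    (hpos : ∀ w : E, w ≠ 0 → 0 < quad M w) : 0 < M.det := by
  have s1 := hs 1 0
  have s2 := hs 2 0
  have s3 := hs 2 1
  have h0 : 0 < M 0 0 := by
    have h := hpos (WithLp.toLp 2 ![1, 0, 0]) (fun h => by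
      have := congrArg (fun w : E => w 0) h
      simp at this)
    unfold quad at h
    simpa [Fin.sum_univ_three] using h
  have h1 : 0 < M 0 0 * M 1 1 - M 0 1 * M 0 1 := by
    have h := hpos (WithLp.toLp 2 ![-M 0 1, M 0 0, 0]) (fun h => by
      have := congrArg (fun w : E => w 1) h
      simp at this
      exact h0.ne' this)
    have e : quad M (WithLp.toLp 2 ![-M 0 1, M 0 0, 0]) =
        M 0 0 * (M 0 0 * M 1 1 - M 0 1 * M 0 1) := by
      unfold quad
      simp only [Fin.sum_univ_three, Matrix.cons_val_zero, Matrix.cons_val_one, Matrix.cons_val,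
        s1, s2, s3]
      ring
    rw [e] at h
    exact (mul_pos_iff_of_pos_left h0).1 h
  have h := hpos (adjv M ![0, 0, 1]) (fun h => by
    have := congrArg (fun w : E => w 2) h
    unfold adjv at this
    simp at this
    linarith)
  have e : quad M (adjv M ![0, 0, 1]) = M.det * (M 0 0 * M 1 1 - M 0 1 * M 0 1) := by
    rw [Matrix.det_fin_three]
    unfold quad adjv
    simp only [Fin.sum_univ_three, Matrix.cons_val_zero, Matrix.cons_val_one, Matrix.cons_val,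
      s1, s2, s3]
    ring
  rw [e] at h
  exact (mul_pos_iff_of_pos_right h1).1 h

theorem form_symm (k s : ℝ) (n a b : Fin 3 → ℝ) (i j : Fin 3) :
    form k s n a b i j = form k s n a b j i := by
  unfold form
  simp only [Matrix.of_apply]
  have : kd i j = kd j i := by
    unfold kd
    by_cases h : i = j
    · simp [h]
    · rw [if_neg h, if_neg (Ne.symm h)]
  rw [this]
  ring

theorem quad_zero (M : Matrix (Fin 3) (Fin 3) ℝ) : quad M 0 = 0 := by
  unfold quad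
  simp

theorem form_bound {k s : ℝ} {n a b : Fin 3 → ℝ} (hk : 0 ≤ k) (hn : ∑ i, n i ^ 2 = 1)
    (hpos : ∀ w : E, w ≠ 0 → 0 < quad (form k s n a b) w) {v : E}
    (hv : quad (form k s n a b) v ≤ 1) :
    Real.sqrt (form k s n a b).det * |∑ i, a i * v i| ≤ k * |∑ i, n i * a i| := by
  have hdet := det_pos_of_quad (form_symm k s n a b) hpos
  have hnn : ∀ w : E, 0 ≤ quad (form k s n a b) w := by
    intro w
    by_cases h : w = 0
    · rw [h, quad_zero]
    · exact (hpos w h).le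
  have h1 := adj_cs (form_symm k s n a b) hnn hdet a v
  rw [form_adj k s a b hn] at h1
  have h2 : (form k s n a b).det * (∑ i, a i * v i) ^ 2 ≤ (k * |∑ i, n i * a i|) ^ 2 := by
    rw [mul_pow, sq_abs]
    refine h1.trans ?_
    exact mul_le_of_le_one_right (by positivity) hv
  have h3 : (Real.sqrt (form k s n a b).det * |∑ i, a i * v i|) ^ 2 ≤
      (k * |∑ i, n i * a i|) ^ 2 := by
    rw [mul_pow, sq_abs, Real.sq_sqrt hdet.le]
    exact h2
  exact (sq_le_sq₀ (by positivity) (by positivity)).1 h3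

theorem fderiv_eq_sum (F : E → ℝ) (x y : E) : fderiv ℝ F x y = ∑ i, pd i F x * y i := by
  have hy : y = ∑ i, y i • EuclideanSpace.single i (1 : ℝ) := by
    ext j
    simp [Finset.sum_apply, Pi.single_apply]
  conv_lhs => rw [hy]
  rw [map_sum]
  refine Finset.sum_congr rfl fun i _ => ?_
  rw [map_smul, smul_eq_mul]
  unfold pd
  ring

theorem unit_sum {x : E} (hx : x ≠ 0) : ∑ i : Fin 3, (x i / ‖x‖) ^ 2 = 1 := sum_unit hx

section

variable {Ω r : ℝ × ℝ → ℝ} {u v : E → ℝ} {x : E}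

theorem slice_comm (Ω r : ℝ × ℝ → ℝ) (u v : E → ℝ) (x : E) :
    slice Ω r u v x = form ((r (u x, v x)) ^ 2 / ‖x‖ ^ 2) ((Ω (u x, v x)) ^ 2 / 2)
      (fun i => x i / ‖x‖) (fun i => pd i v x) (fun i => pd i u x) := by
  rw [slice_eq_form, form_comm]

/-- The level sets of `u` in the hypersurface. -/
theorem bound_u (hx : x ≠ 0) (hpos : ∀ w : E, w ≠ 0 → 0 < quad (slice Ω r u v x) w) {w : E}
    (hw : quad (slice Ω r u v x) w ≤ 1) :
    Real.sqrt (slice Ω r u v x).det * |fderiv ℝ u x w| * ‖x‖ ^ 3 ≤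
      (r (u x, v x)) ^ 2 * |fderiv ℝ u x x| := by
  have hr : 0 < ‖x‖ := norm_pos_iff.2 hx
  rw [slice_eq_form] at hpos hw ⊢
  have h := form_bound (by positivity) (unit_sum hx) hpos hw
  rw [fderiv_eq_sum, fderiv_eq_sum u x x]
  have e : ∑ i, x i / ‖x‖ * pd i u x = (∑ i, pd i u x * x i) / ‖x‖ := by
    rw [Finset.sum_div]
    exact Finset.sum_congr rfl fun i _ => by ring
  rw [e, abs_div, abs_of_pos hr] at h
  calc Real.sqrt _ * |∑ i, pd i u x * w i| * ‖x‖ ^ 3 ≤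
        ((r (u x, v x)) ^ 2 / ‖x‖ ^ 2 * (|∑ i, pd i u x * x i| / ‖x‖)) * ‖x‖ ^ 3 :=
        mul_le_mul_of_nonneg_right h (by positivity)
    _ = (r (u x, v x)) ^ 2 * |∑ i, pd i u x * x i| := by field_simp

/-- The level sets of `v` in the hypersurface. -/
theorem bound_v (hx : x ≠ 0) (hpos : ∀ w : E, w ≠ 0 → 0 < quad (slice Ω r u v x) w) {w : E}
    (hw : quad (slice Ω r u v x) w ≤ 1) :
    Real.sqrt (slice Ω r u v x).det * |fderiv ℝ v x w| * ‖x‖ ^ 3 ≤
      (r (u x, v x)) ^ 2 * |fderiv ℝ v x x| := by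
  have hr : 0 < ‖x‖ := norm_pos_iff.2 hx
  rw [slice_comm] at hpos hw ⊢
  have h := form_bound (by positivity) (unit_sum hx) hpos hw
  rw [fderiv_eq_sum, fderiv_eq_sum v x x]
  have e : ∑ i, x i / ‖x‖ * pd i v x = (∑ i, pd i v x * x i) / ‖x‖ := by
    rw [Finset.sum_div]
    exact Finset.sum_congr rfl fun i _ => by ring
  rw [e, abs_div, abs_of_pos hr] at h
  calc Real.sqrt _ * |∑ i, pd i v x * w i| * ‖x‖ ^ 3 ≤
        ((r (u x, v x)) ^ 2 / ‖x‖ ^ 2 * (|∑ i, pd i v x * x i| / ‖x‖)) * ‖x‖ ^ 3 :=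
        mul_le_mul_of_nonneg_right h (by positivity)
    _ = (r (u x, v x)) ^ 2 * |∑ i, pd i v x * x i| := by field_simp

/-- The radial component of the induced metric. -/
theorem hrad_slice (hx : x ≠ 0) :
    hrad (slice Ω r u v) x = -((Ω (u x, v x)) ^ 2 * (dr u x * dr v x)) := by
  have hn := unit_sum hx
  unfold hrad slice dr
  simp only [Fin.sum_univ_three] at hn ⊢
  simp only [kd, Matrix.of_apply, if_true, Fin.reduceEq, if_false]
  set n0 := x 0 / ‖x‖
  set n1 := x 1 / ‖x‖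
  set n2 := x 2 / ‖x‖
  linear_combination (-((r (u x, v x)) ^ 2 / ‖x‖ ^ 2 * (n0 ^ 2 + n1 ^ 2 + n2 ^ 2))) * hn

/-- The tangential directions in which `u` is constant. -/
theorem quad_slice_tangential {t : E} (h1 : ∑ i, x i * t i = 0) (h2 : ∑ i, pd i u x * t i = 0) :
    quad (slice Ω r u v x) t = (r (u x, v x)) ^ 2 / ‖x‖ ^ 2 * ‖t‖ ^ 2 := by
  unfold quad slice
  rw [norm_sq_eq t]
  simp only [Fin.sum_univ_three] at h1 h2 ⊢
  simp only [kd, Matrix.of_apply, if_true, Fin.reduceEq, if_false]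
  linear_combination (-((r (u x, v x)) ^ 2 / ‖x‖ ^ 2 * (‖x‖⁻¹) ^ 2 *
    (x 0 * t 0 + x 1 * t 1 + x 2 * t 2))) * h1 -
    ((Ω (u x, v x)) ^ 2 * (pd 0 v x * t 0 + pd 1 v x * t 1 + pd 2 v x * t 2)) * h2

end

end Pool.Agent.V8H95.PI
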