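import Pool.Agent.V8H95.PI.SliceMain

/-!
# Hypersurfaces: the Penrose inequality
-/

set_option autoImplicit false

namespace Pool.Agent.V8H95.PI

open Pool.Agent.K4H63.PI
open scoped BigOperators Topology ENNReal
open Matrix Filter Set MeasureTheory

/-- The two ends: at `|x| → ∞` and at `x → 0` both null coordinates tend to their extreme values
(on the way from the second end `x → 0` to the special end `|x| → ∞`, `u` decreases and `v`
increases), and the area radius tends to infinity at the second end. -/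
structure TwoEnds (r : ℝ × ℝ → ℝ) (u v : E → ℝ) : Prop where
  outer : ∀ x₀ : E, x₀ ≠ 0 → ∀ᶠ x in cocompact E, u x < u x₀ ∧ v x₀ < v x
  inner : ∀ x₀ : E, x₀ ≠ 0 → ∀ᶠ x in 𝓝[≠] (0 : E), u x₀ < u x ∧ v x < v x₀
  radius : Tendsto (fun x => r (u x, v x)) (𝓝[≠] (0 : E)) atTop

section

variable {Q : Set (ℝ × ℝ)} {Ω r : ℝ × ℝ → ℝ} {u v : E → ℝ}

/-- The part of the flux density which controls the mass function. -/
noncomputable def Mt (Ω r : ℝ × ℝ → ℝ) (u v : E → ℝ) (x : E) : ℝ :=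
  ‖x‖ / 2 * hrad (slice Ω r u v) x + (r (u x, v x)) ^ 2 / (2 * ‖x‖) -
    r (u x, v x) * dr (fun y => r (u y, v y)) x

/-- The other part of the flux is `|x|/4` times the radial derivative of this function. -/
noncomputable def yy (Ω r : ℝ × ℝ → ℝ) (u v : E → ℝ) (x : E) : ℝ :=
  2 * (r (u x, v x)) ^ 2 / ‖x‖ - ‖x‖ * qq (slice Ω r u v) x

theorem Hypersurface.R_smooth (H : Hypersurface Q Ω r u v) (S : Spacetime Q Ω r) :
    ContDiffOn ℝ 1 (fun y => r (u y, v y)) {0}ᶜ := fun _ hx =>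
  (H.R_at S hx).contDiffWithinAt

theorem Hypersurface.Mt_cont (H : Hypersurface Q Ω r u v) (S : Spacetime Q Ω r) :
    ContinuousOn (Mt Ω r u v) {0}ᶜ := by
  have hR := (H.R_smooth S).continuousOn
  have hd := dr_cont (H.R_smooth S)
  have hA : ContinuousOn (hrad (slice Ω r u v)) {0}ᶜ := fun x hx =>
    ((H.tensor S).hrad_contDiffAt hx).continuousAt.continuousWithinAt
  have hn : ContinuousOn (fun x : E => ‖x‖) {0}ᶜ := continuous_norm.continuousOn
  unfold Mt
  refine (((hn.div_const 2).mul hA).add ((hR.pow 2).div (continuousOn_const.mul hn) ?_)).sub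
    (hR.mul hd)
  intro x hx
  exact mul_ne_zero two_ne_zero (norm_ne_zero_iff.2 hx)

theorem Hypersurface.yy_smooth (H : Hypersurface Q Ω r u v) (S : Spacetime Q Ω r) :
    ContDiffOn ℝ 1 (yy Ω r u v) {0}ᶜ := by
  intro x hx
  have hx : x ≠ 0 := hx
  refine ContDiffAt.contDiffWithinAt ?_
  unfold yy
  have hn : ContDiffAt ℝ 1 (fun x : E => ‖x‖) x := contDiffAt_norm ℝ hx
  exact ((contDiffAt_const.mul ((H.R_at S hx).pow 2)).div hn (norm_ne_zero_iff.2 hx)).sub
    (hn.mul ((H.tensor S).qq_contDiffAt hx))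

theorem Hypersurface.dr_yy (H : Hypersurface Q Ω r u v) (S : Spacetime Q Ω r) {ω : E}
    (hω : ‖ω‖ = 1) {s : ℝ} (hs : 0 < s) : dr (yy Ω r u v) (s • ω) =
      4 * r (u (s • ω), v (s • ω)) * dr (fun y => r (u y, v y)) (s • ω) / s -
      2 * (r (u (s • ω), v (s • ω))) ^ 2 / s ^ 2 - qq (slice Ω r u v) (s • ω) -
      s * dr (qq (slice Ω r u v)) (s • ω) := by
  have hx := ray_ne hω hs
  have d1 := hasDerivAt_ray hω hs ((H.R_at S hx).differentiableAt (by norm_num))
  have d2 := hasDerivAt_ray hω hs ((H.tensor S).qq_diff hx)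
  have d3 := (((d1.fun_pow 2).const_mul 2).div (hasDerivAt_id s) hs.ne').sub
    ((hasDerivAt_id s).mul d2)
  have d4 := hasDerivAt_ray hω hs (((H.yy_smooth S).contDiffAt (nhds_ne hx)).differentiableAt
    (by norm_num))
  have d5 := d4.congr_of_eventuallyEq (f₁ := fun t => 2 * (r (u (t • ω), v (t • ω))) ^ 2 / t -
      t * qq (slice Ω r u v) (t • ω)) (by
    filter_upwards [Ioi_mem_nhds hs] with t ht
    unfold yy
    rw [ray_norm hω ht])
  have h := d5.unique d3
  rw [h]
  simp only [id]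
  field_simp
  ring

theorem Hypersurface.flux (H : Hypersurface Q Ω r u v) (S : Spacetime Q Ω r) {s : ℝ}
    (hs : 0 < s) : admFlux (slice Ω r u v) s =
      sphAvg (Mt Ω r u v) s + s / 4 * sphAvg (dr (yy Ω r u v)) s := by
  have e := sphAvg_add (F := Mt Ω r u v) (G := fun x => s / 4 * dr (yy Ω r u v) x)
    (H.Mt_cont S) (continuousOn_const.mul (dr_cont (H.yy_smooth S))) hs
  rw [admFlux_eq (H.tensor S) hs, ← sphAvg_mul, ← sphAvg_mul, ← e]
  refine sphAvg_congr fun ω hω => ?_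
  rw [H.dr_yy S hω hs]
  unfold Mt
  rw [ray_norm hω hs]
  field_simp
  ring

theorem Bounds.low {c M : ℝ} (B : Bounds Ω r u v c M) (S : Spacetime Q Ω r)
    (H : Hypersurface Q Ω r u v) {x : E} (hx : M ≤ ‖x‖) :
    msMass Ω r (u x, v x) ≤ Mt Ω r u v x + c ^ 2 / ‖x‖ +
      (1 + c) / 2 * (‖x‖ * (normalRadius Ω r u v x) ^ 2) := by
  have hx0 := B.ne hx
  have hn : 0 < ‖x‖ := norm_pos_iff.2 hx0
  have hc := B.cpos
  have hA := B.A x hx
  have hApos := H.hrad_pos hx0
  obtain ⟨h1, h2⟩ := B.radius S H hx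
  have hr := S.radius_pos _ (H.maps x hx0)
  rw [H.ms_eq S hx0]
  unfold Mt
  set A := hrad (slice Ω r u v) x
  set Rs := dr (fun y => r (u y, v y)) x
  set N2 := (normalRadius Ω r u v x) ^ 2 with hN2
  set R := r (u x, v x)
  set s := ‖x‖
  have hN20 : 0 ≤ N2 := by positivity
  set β := R / s with hβ
  have hRβ : R = s * β := by rw [hβ]; field_simp
  have hβ0 : 0 < β := by positivity
  have e1 : s / 2 * A + R ^ 2 / (2 * s) - R * Rs = R / 2 * (1 - Rs ^ 2 / A) +
      s / 2 * (β / A) * (Rs - A) ^ 2 + s / 2 * ((A - β) * (1 - β)) := by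
    rw [hRβ]
    field_simp
    ring
  have e2 : 0 ≤ s / 2 * (β / A) * (Rs - A) ^ 2 := by positivity
  have e3 : -(c ^ 2 / s) ≤ s / 2 * ((A - β) * (1 - β)) := by
    have h3 : |A - β| ≤ 2 * (c / s) := by
      rw [abs_le] at hA h1 ⊢
      constructor <;> linarith [hA.1, hA.2, h1.1, h1.2]
    have h4 : |1 - β| ≤ c / s := by rw [abs_sub_comm]; exact h1
    have h5 : |(A - β) * (1 - β)| ≤ 2 * (c / s) * (c / s) := by
      rw [abs_mul]
      exact mul_le_mul h3 h4 (abs_nonneg _) (by positivity)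
    have h6 := (abs_le.1 h5).1
    calc -(c ^ 2 / s) = s / 2 * (-(2 * (c / s) * (c / s))) := by field_simp
      _ ≤ _ := mul_le_mul_of_nonneg_left h6 (by positivity)
  have e4 : R / 2 * N2 ≤ (1 + c) / 2 * (s * N2) := by
    have h7 : R ≤ (1 + c) * s := by
      have := (abs_le.1 h2).2
      have : 1 ≤ s := B.M1.trans hx
      nlinarith
    calc R / 2 * N2 ≤ ((1 + c) * s) / 2 * N2 := by gcongr
      _ = (1 + c) / 2 * (s * N2) := by ring
  rw [e1]
  have e5 : R / 2 * (1 - Rs ^ 2 / A + N2) = R / 2 * (1 - Rs ^ 2 / A) + R / 2 * N2 := by ring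
  rw [e5]
  linarith

theorem ms_mono_far (S : Spacetime Q Ω r) (H : Hypersurface Q Ω r u v) (D : EnergyCond Ω r u v)
    {R₁ : ℝ} (hR₁ : 0 < R₁) (hreg : ∀ x : E, R₁ ≤ ‖x‖ → Regular r u v x) {ω : E} (hω : ‖ω‖ = 1) :
    MonotoneOn (fun s : ℝ => msMass Ω r (u (s • ω), v (s • ω))) (Ici R₁) := by
  refine monotoneOn_of_deriv_nonneg (convex_Ici _)
    (fun s hs => (H.ms_deriv S hω (hR₁.trans_le hs)).continuousAt.continuousWithinAt)
    (fun s hs => (H.ms_deriv S hω
      (hR₁.trans_le (interior_subset hs))).differentiableAt.differentiableWithinAt)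
    fun s hs => ?_
  have hs' : R₁ ≤ s := interior_subset hs
  have hs0 : 0 < s := hR₁.trans_le hs'
  have hx := ray_ne hω hs0
  rw [(H.ms_deriv S hω hs0).deriv]
  obtain ⟨h1, h2⟩ := hreg (s • ω) (by rw [ray_norm hω hs0]; exact hs')
  obtain ⟨d1, d2, d3⟩ := D _ hx
  have h3 := H.dr_u_neg hx
  have h4 := H.dr_v_pos S hx
  refine mul_nonneg (by positivity) (add_nonneg ?_ ?_)
  · refine mul_nonneg_of_nonpos_of_nonpos h3.le ?_
    have e1 := mul_nonneg (neg_nonneg.2 h1.le) d2
    have e2 := mul_nonneg h2.le d1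
    linarith
  · refine mul_nonneg h4.le ?_
    have e1 := mul_nonneg h2.le d2
    have e2 := mul_nonneg (neg_nonneg.2 h1.le) d3
    linarith

/-- Every ray contains a point which is not regular. -/
theorem exists_not_regular (S : Spacetime Q Ω r) (H : Hypersurface Q Ω r u v)
    (T : TwoEnds r u v) {ω : E} (hω : ‖ω‖ = 1) : ∃ a : ℝ, 0 < a ∧ ¬ Regular r u v (a • ω) := by
  by_contra hcon
  push Not at hcon
  have hmono : MonotoneOn (fun s : ℝ => r (u (s • ω), v (s • ω))) (Ioi 0) := by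
    have hd : ∀ s, 0 < s → HasDerivAt (fun s : ℝ => r (u (s • ω), v (s • ω)))
        (dr (fun y => r (u y, v y)) (s • ω)) s := fun s hs =>
      hasDerivAt_ray hω hs ((H.R_at S (ray_ne hω hs)).differentiableAt (by norm_num))
    refine monotoneOn_of_deriv_nonneg (convex_Ioi _)
      (fun s hs => (hd s hs).continuousAt.continuousWithinAt)
      (fun s hs => (hd s (interior_subset hs)).differentiableAt.differentiableWithinAt)
      fun s hs => ?_
    have hs0 : 0 < s := interior_subset hs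
    have hx := ray_ne hω hs0
    rw [(hd s hs0).deriv, H.dr_R S hx]
    obtain ⟨h1, h2⟩ := hcon s hs0
    have h3 := H.dr_u_neg hx
    have h4 := H.dr_v_pos S hx
    exact add_nonneg (mul_nonneg_of_nonpos_of_nonpos h3.le h1.le) (mul_nonneg h4.le h2.le)
  have h1 := T.radius.eventually_gt_atTop (r (u ((1:ℝ) • ω), v ((1:ℝ) • ω)))
  rw [eventually_nhdsWithin_iff, Metric.eventually_nhds_iff] at h1
  obtain ⟨δ, hδ, h1⟩ := h1
  set a := min (δ / 2) 1
  have ha : 0 < a := lt_min (by positivity) one_pos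
  have h2 := h1 (y := a • ω) (by
    rw [dist_zero_right, ray_norm hω ha]
    exact (min_le_left _ _).trans_lt (half_lt_self hδ)) (ray_ne hω ha)
  have h3 := hmono (show a ∈ Ioi (0:ℝ) from ha) (mem_Ioi.2 one_pos)
    (min_le_right _ _)
  simp only at h3
  linarith

theorem u_radial (H : Hypersurface Q Ω r u v) (T : TwoEnds r u v) {x₀ : E} (hx₀ : x₀ ≠ 0) :
    RadialFn (fun x => -u x) (-u x₀) where
  smooth := H.smooth_u.neg
  incr := fun x hx => by
    have h : fderiv ℝ (fun x => -u x) x = -fderiv ℝ u x := fderiv_fun_neg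
    rw [h, _root_.neg_apply]
    have := H.orient x hx
    linarith
  inner := by
    filter_upwards [T.inner x₀ hx₀] with x hx
    linarith [hx.1]
  outer := by
    filter_upwards [T.outer x₀ hx₀] with x hx
    linarith [hx.1]

theorem v_radial (S : Spacetime Q Ω r) (H : Hypersurface Q Ω r u v) (T : TwoEnds r u v) {x₀ : E}
    (hx₀ : x₀ ≠ 0) : RadialFn v (v x₀) where
  smooth := H.smooth_v
  incr := fun x hx => H.fderiv_v_pos S hx
  inner := by
    filter_upwards [T.inner x₀ hx₀] with x hx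
    exact hx.2
  outer := by
    filter_upwards [T.outer x₀ hx₀] with x hx
    exact hx.2

/-- The area radius on the null line `u = u(x₀)` is maximal at `x₀` if `∂_v r = 0` there. -/
theorem radius_le_u (S : Spacetime Q Ω r) (H : Hypersurface Q Ω r u v) (D : EnergyCond Ω r u v)
    (T : TwoEnds r u v) {x₀ : E} (hx₀ : x₀ ≠ 0) (hz : pv r (u x₀, v x₀) = 0) {x : E}
    (hx : x ≠ 0) (hux : -u x = -u x₀) : r (u x, v x) ≤ r (u x₀, v x₀) := by
  set I : Set ℝ := v '' {y : E | y ≠ 0 ∧ -u y = -u x₀} with hI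
  have hIc : I.OrdConnected := by
    refine (((u_radial H T hx₀).level_preconnected).image v ?_).ordConnected
    exact H.smooth_v.continuousOn.mono fun y hy => hy.1
  have hmem : ∀ t ∈ I, (u x₀, t) ∈ Q ∧ 0 ≤ einVV Ω r (u x₀, t) := by
    rintro t ⟨y, ⟨hy, hyu⟩, rfl⟩
    have h1 : u y = u x₀ := by linarith
    rw [← h1]
    exact ⟨H.maps y hy, (D y hy).2.2⟩
  have hcurve : ∀ t : ℝ, HasDerivAt (fun t : ℝ => (u x₀, t)) ((0 : ℝ), (1 : ℝ)) t := fun t =>
    (hasDerivAt_const t (u x₀)).prodMk (hasDerivAt_id t)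
  have h := null_line (I := I) hIc (ρ := fun t => r (u x₀, t))
    (κ := fun t => pv r (u x₀, t) / (Ω (u x₀, t)) ^ 2)
    (κ' := fun t => pv (fun q => pv r q / (Ω q) ^ 2) (u x₀, t))
    (e := fun t => (Ω (u x₀, t)) ^ 2)
    (fun t ht => by have := S.lapse_pos _ (hmem t ht).1; positivity)
    (fun t ht => by
      have h1 := ((S.r2 (hmem t ht).1).differentiableAt (by norm_num)).hasFDerivAt.comp_hasDerivAt t
        (hcurve t)
      have h2 := S.lapse_pos _ (hmem t ht).1
      refine h1.congr_deriv ?_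
      unfold pv
      field_simp)
    (fun t ht => ((S.pvΩ (hmem t ht).1).differentiableAt (by norm_num)).hasFDerivAt.comp_hasDerivAt
      t (hcurve t))
    (fun t ht => by
      have h1 := (hmem t ht).2
      have h2 := S.lapse_pos _ (hmem t ht).1
      have h3 := S.radius_pos _ (hmem t ht).1
      unfold einVV at h1
      by_contra h4
      have h5 := not_le.1 h4
      have h6 : 0 < 2 / r (u x₀, t) * (Ω (u x₀, t)) ^ 2 *
        pv (fun q => pv r q / (Ω q) ^ 2) (u x₀, t) := by positivity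
      linarith)
    (t₀ := v x₀) ⟨x₀, ⟨hx₀, rfl⟩, rfl⟩ (by rw [hz, zero_div])
    (t := v x) ⟨x, ⟨hx, hux⟩, rfl⟩
  have h1 : u x = u x₀ := by linarith
  rw [h1]
  exact h

/-- The area radius on the null line `v = v(x₀)` is maximal at `x₀` if `∂_u r = 0` there. -/
theorem radius_le_v (S : Spacetime Q Ω r) (H : Hypersurface Q Ω r u v) (D : EnergyCond Ω r u v)
    (T : TwoEnds r u v) {x₀ : E} (hx₀ : x₀ ≠ 0) (hz : pu r (u x₀, v x₀) = 0) {x : E}
    (hx : x ≠ 0) (hvx : v x = v x₀) : r (u x, v x) ≤ r (u x₀, v x₀) := by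
  set I : Set ℝ := u '' {y : E | y ≠ 0 ∧ v y = v x₀} with hI
  have hIc : I.OrdConnected := by
    refine (((v_radial S H T hx₀).level_preconnected).image u ?_).ordConnected
    exact H.smooth_u.continuousOn.mono fun y hy => hy.1
  have hmem : ∀ t ∈ I, (t, v x₀) ∈ Q ∧ 0 ≤ einUU Ω r (t, v x₀) := by
    rintro t ⟨y, ⟨hy, hyu⟩, rfl⟩
    rw [← hyu]
    exact ⟨H.maps y hy, (D y hy).1⟩
  have hcurve : ∀ t : ℝ, HasDerivAt (fun t : ℝ => (t, v x₀)) ((1 : ℝ), (0 : ℝ)) t := fun t =>
    (hasDerivAt_id t).prodMk (hasDerivAt_const t (v x₀))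
  have h := null_line (I := I) hIc (ρ := fun t => r (t, v x₀))
    (κ := fun t => pu r (t, v x₀) / (Ω (t, v x₀)) ^ 2)
    (κ' := fun t => pu (fun q => pu r q / (Ω q) ^ 2) (t, v x₀))
    (e := fun t => (Ω (t, v x₀)) ^ 2)
    (fun t ht => by have := S.lapse_pos _ (hmem t ht).1; positivity)
    (fun t ht => by
      have h1 := ((S.r2 (hmem t ht).1).differentiableAt (by norm_num)).hasFDerivAt.comp_hasDerivAt t
        (hcurve t)
      have h2 := S.lapse_pos _ (hmem t ht).1
      refine h1.congr_deriv ?_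
      unfold pu
      field_simp)
    (fun t ht => ((S.puΩ (hmem t ht).1).differentiableAt (by norm_num)).hasFDerivAt.comp_hasDerivAt
      t (hcurve t))
    (fun t ht => by
      have h1 := (hmem t ht).2
      have h2 := S.lapse_pos _ (hmem t ht).1
      have h3 := S.radius_pos _ (hmem t ht).1
      unfold einUU at h1
      by_contra h4
      have h5 := not_le.1 h4
      have h6 : 0 < 2 / r (t, v x₀) * (Ω (t, v x₀)) ^ 2 *
        pu (fun q => pu r q / (Ω q) ^ 2) (t, v x₀) := by positivity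
      linarith)
    (t₀ := u x₀) ⟨x₀, ⟨hx₀, rfl⟩, rfl⟩ (by rw [hz, zero_div])
    (t := u x) ⟨x, ⟨hx, hvx⟩, rfl⟩
  rw [hvx]
  exact h

/-- The Penrose inequality for spacelike hypersurfaces with two ends of spherically symmetric
spacetimes. -/
theorem slice_theorem {m : ℝ} (S : Spacetime Q Ω r) (H : Hypersurface Q Ω r u v)
    (D : EnergyCond Ω r u v) (T : TwoEnds r u v) (F : FlatSlice Ω r u v m) :
    0 < m ∧ leastArea {0} (slice Ω r u v) ≤ ENNReal.ofReal (16 * Real.pi * m ^ 2) := by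
  obtain ⟨c, M, B⟩ := exists_bounds F
  have hc := B.cpos
  obtain ⟨R₁, hR₁, hMR, hreg⟩ := B.regular S H D
  have hμ : ContinuousOn (fun x => msMass Ω r (u x, v x)) {0}ᶜ := fun x hx =>
    (H.comp_at hx (S.ms_contDiffAt (H.maps x hx))).continuousAt.continuousWithinAt
  obtain ⟨ω, hω, hle⟩ := exists_ray (μ := fun x => msMass Ω r (u x, v x)) (C := 4 * c) hR₁ F.mass
    (H.Mt_cont S) hμ (H.yy_smooth S) (fun s hs => H.flux S hs)
    (fun x hx => by
      have hx0 := B.ne (hMR.trans hx)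
      have hn : 0 < ‖x‖ := norm_pos_iff.2 hx0
      have h1 := B.k x (hMR.trans hx)
      have h2 := B.q x (hMR.trans hx)
      have e : yy Ω r u v x = ‖x‖ * (2 * ((r (u x, v x)) ^ 2 / ‖x‖ ^ 2 - 1) -
          (qq (slice Ω r u v) x - 2)) := by
        unfold yy
        field_simp
        ring
      have h3 : |2 * ((r (u x, v x)) ^ 2 / ‖x‖ ^ 2 - 1) - (qq (slice Ω r u v) x - 2)| ≤
          4 * c / ‖x‖ := by
        have e2 : 2 * c / ‖x‖ = 2 * (c / ‖x‖) := by ring
        have e4 : 4 * c / ‖x‖ = 4 * (c / ‖x‖) := by ring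
        rw [e2] at h2
        rw [e4]
        rw [abs_le] at h1 h2 ⊢
        constructor <;> linarith [h1.1, h1.2, h2.1, h2.2]
      rw [e, abs_mul, abs_of_pos hn]
      calc ‖x‖ * _ ≤ ‖x‖ * (4 * c / ‖x‖) := mul_le_mul_of_nonneg_left h3 hn.le
        _ = 4 * c := by field_simp)
    (fun ω hω => ms_mono_far S H D hR₁ hreg hω)
    (fun ε hε => by
      obtain ⟨M', hM'1, hM'⟩ := exists_of_cocompact
        (F.normal.eventually_le_const (u := ε / (1 + c)) (by positivity))
      refine ⟨max (max M M') (2 * c ^ 2 / ε), fun x hx => ?_⟩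
      have h1 : M ≤ ‖x‖ := (le_max_left _ _).trans ((le_max_left _ _).trans hx)
      have h2 : M' ≤ ‖x‖ := (le_max_right _ _).trans ((le_max_left _ _).trans hx)
      have h3 : 2 * c ^ 2 / ε ≤ ‖x‖ := (le_max_right _ _).trans hx
      have hn : 0 < ‖x‖ := norm_pos_iff.2 (B.ne h1)
      have h4 := B.low S H h1
      have h5 := hM' x h2
      have h6 : c ^ 2 / ‖x‖ ≤ ε / 2 := by
        rw [div_le_iff₀ hn]
        rw [div_le_iff₀ hε] at h3
        linarith
      have h7 : (1 + c) / 2 * (‖x‖ * (normalRadius Ω r u v x) ^ 2) ≤ ε / 2 := by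
        calc (1 + c) / 2 * (‖x‖ * (normalRadius Ω r u v x) ^ 2) ≤
              (1 + c) / 2 * (ε / (1 + c)) := mul_le_mul_of_nonneg_left h5 (by positivity)
          _ = ε / 2 := by field_simp
      linarith)
  obtain ⟨a, ha, hna⟩ := exists_not_regular S H T hω
  set b := max R₁ a with hb
  have hb0 : 0 < b := hR₁.trans_le (le_max_left _ _)
  obtain ⟨t, hat, _, _, _, hor, hmt⟩ := segment S H D hω ha (le_max_right R₁ a) hna
    (hreg (b • ω) (by rw [ray_norm hω hb0]; exact le_max_left _ _))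
  have ht : 0 < t := ha.trans_le hat
  set x₀ := t • ω with hx₀def
  have hx₀ : x₀ ≠ 0 := ray_ne hω ht
  have hρ := S.radius_pos _ (H.maps x₀ hx₀)
  have hm : r (u x₀, v x₀) / 2 ≤ m := hmt.trans (hle b (le_max_left _ _))
  have hpi := Real.pi_pos
  refine ⟨by linarith, ?_⟩
  have harea : leastArea {0} (slice Ω r u v) ≤
      ENNReal.ofReal (4 * Real.pi * (r (u x₀, v x₀)) ^ 2) := by
    have hR0 : ∀ x : E, x ≠ 0 → 0 ≤ r (u x, v x) := fun x hx => (S.radius_pos _ (H.maps x hx)).le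
    rcases hor with h | h
    · refine (v_radial S H T hx₀).leastArea_le (H.sqrt_det S) (H.R_smooth S).continuousOn hR0
        (fun x hx w hw => bound_v hx (H.spacelike x hx) hw)
        (fun x hx hvx => radius_le_v S H D T hx₀ h hx hvx)
    · refine (u_radial H T hx₀).leastArea_le (H.sqrt_det S) (H.R_smooth S).continuousOn hR0
        (fun x hx w hw => ?_)
        (fun x hx hux => radius_le_u S H D T hx₀ h hx hux)
      have h1 : fderiv ℝ (fun x => -u x) x = -fderiv ℝ u x := fderiv_fun_neg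
      rw [h1, _root_.neg_apply, _root_.neg_apply, abs_neg, abs_neg]
      exact bound_u hx (H.spacelike x hx) hw
  refine harea.trans (ENNReal.ofReal_le_ofReal ?_)
  have h2 : (r (u x₀, v x₀) / 2) ^ 2 ≤ m ^ 2 := pow_le_pow_left₀ (by positivity) hm 2
  nlinarith

end

end Pool.Agent.V8H95.PI
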