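import Pool.Agent.V8H95.PI.Hyper

/-!
# Hypersurfaces: the asymptotically flat end
-/

set_option autoImplicit false

namespace Pool.Agent.V8H95.PI

open Pool.Agent.K4H63.PI
open scoped BigOperators Topology ENNReal
open Matrix Filter Set MeasureTheory

/-- The hypersurface is asymptotically flat at `|x| → ∞` with total mass `m`: the induced metric
satisfies `|g_ij - δ_ij| ≤ C / |x|`, the normal derivative of the area radius tends to zero faster
than `|x|^(-1/2)`, and the limit of the ADM flux integrals is `m`. -/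
structure FlatSlice (Ω r : ℝ × ℝ → ℝ) (u v : E → ℝ) (m : ℝ) : Prop where
  metric : ∃ C : ℝ, ∀ x : E, 1 ≤ ‖x‖ → ∀ i j, |slice Ω r u v x i j - kd i j| ≤ C / ‖x‖
  normal : Tendsto (fun x => ‖x‖ * (normalRadius Ω r u v x) ^ 2) (cocompact E) (𝓝 0)
  mass : Tendsto (admFlux (slice Ω r u v)) atTop (𝓝 m)

/-- The energy condition: `G_uu ≥ 0`, `G_uv ≥ 0` and `G_vv ≥ 0` at the points of the hypersurface. -/
def EnergyCond (Ω r : ℝ × ℝ → ℝ) (u v : E → ℝ) : Prop :=
  ∀ x : E, x ≠ 0 → 0 ≤ einUU Ω r (u x, v x) ∧ 0 ≤ einUV Ω r (u x, v x) ∧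
    0 ≤ einVV Ω r (u x, v x)

section

variable {Q : Set (ℝ × ℝ)} {Ω r : ℝ × ℝ → ℝ} {u v : E → ℝ}

theorem segment (S : Spacetime Q Ω r) (H : Hypersurface Q Ω r u v) (D : EnergyCond Ω r u v)
    {ω : E} (hω : ‖ω‖ = 1) {a b : ℝ} (ha : 0 < a) (hab : a ≤ b)
    (hna : ¬ Regular r u v (a • ω)) (hb : Regular r u v (b • ω)) :
    ∃ t, a ≤ t ∧ t < b ∧ pu r (u (t • ω), v (t • ω)) ≤ 0 ∧ 0 ≤ pv r (u (t • ω), v (t • ω)) ∧
      (pu r (u (t • ω), v (t • ω)) = 0 ∨ pv r (u (t • ω), v (t • ω)) = 0) ∧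
      r (u (t • ω), v (t • ω)) / 2 ≤ msMass Ω r (u (b • ω), v (b • ω)) := by
  set f : ℝ → ℝ := fun t => pu r (u (t • ω), v (t • ω)) with hf
  set g : ℝ → ℝ := fun t => pv r (u (t • ω), v (t • ω)) with hg
  have hfc : ∀ t, 0 < t → ContinuousAt f t := fun t ht => by
    have hx := ray_ne hω ht
    have h1 : ContinuousAt (fun y : E => pu r (u y, v y)) (t • ω) :=
      (H.comp_at hx (S.pu_contDiffAt (H.maps _ hx))).continuousAt
    exact ContinuousAt.comp (f := fun s : ℝ => s • ω) h1 (by fun_prop)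
  have hgc : ∀ t, 0 < t → ContinuousAt g t := fun t ht => by
    have hx := ray_ne hω ht
    have h1 : ContinuousAt (fun y : E => pv r (u y, v y)) (t • ω) :=
      (H.comp_at hx (S.pv_contDiffAt (H.maps _ hx))).continuousAt
    exact ContinuousAt.comp (f := fun s : ℝ => s • ω) h1 (by fun_prop)
  set Z : Set ℝ := {t ∈ Icc a b | ¬ (f t < 0 ∧ 0 < g t)} with hZ
  have hZc : IsCompact Z := by
    have h1 : Z = Icc a b ∩ ((fun t => (f t, g t)) ⁻¹' (Iio 0 ×ˢ Ioi 0)ᶜ) := by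
      ext t
      rfl
    have h2 : ContinuousOn (fun t => (f t, g t)) (Icc a b) := fun t ht =>
      ((hfc t (ha.trans_le ht.1)).prodMk (hgc t (ha.trans_le ht.1))).continuousWithinAt
    rw [h1]
    exact isCompact_Icc.of_isClosed_subset
      (h2.preimage_isClosed_of_isClosed isClosed_Icc (isOpen_Iio.prod isOpen_Ioi).isClosed_compl)
      inter_subset_left
  obtain ⟨t, htZ, htmax⟩ := hZc.exists_isGreatest ⟨a, ⟨⟨le_rfl, hab⟩, hna⟩⟩
  have ht0 : 0 < t := ha.trans_le htZ.1.1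
  have htb : t < b := by
    refine lt_of_le_of_ne htZ.1.2 fun h => ?_
    exact htZ.2 (by rw [h]; exact hb)
  have hreg : ∀ s, t < s → s ≤ b → f s < 0 ∧ 0 < g s := by
    intro s hs1 hs2
    by_contra h
    have h1 : s ∈ Z := ⟨⟨htZ.1.1.trans hs1.le, hs2⟩, h⟩
    exact absurd (htmax h1) (not_le.2 hs1)
  have hf0 : f t ≤ 0 := by
    refine le_of_tendsto (x := 𝓝[>] t) ((hfc t ht0).mono_left nhdsWithin_le_nhds) ?_
    filter_upwards [Ioo_mem_nhdsGT htb] with s hs
    exact (hreg s hs.1 hs.2.le).1.le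
  have hg0 : 0 ≤ g t := by
    refine ge_of_tendsto (x := 𝓝[>] t) ((hgc t ht0).mono_left nhdsWithin_le_nhds) ?_
    filter_upwards [Ioo_mem_nhdsGT htb] with s hs
    exact (hreg s hs.1 hs.2.le).2.le
  have hor : f t = 0 ∨ g t = 0 := by
    by_contra h
    push Not at h
    exact htZ.2 ⟨lt_of_le_of_ne hf0 h.1, lt_of_le_of_ne hg0 (Ne.symm h.2)⟩
  refine ⟨t, htZ.1.1, htb, hf0, hg0, hor, ?_⟩
  have hmono : MonotoneOn (fun s : ℝ => msMass Ω r (u (s • ω), v (s • ω))) (Icc t b) := by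
    refine monotoneOn_of_deriv_nonneg (convex_Icc _ _)
      (fun s hs => (H.ms_deriv S hω (ht0.trans_le hs.1)).continuousAt.continuousWithinAt)
      (fun s hs => (H.ms_deriv S hω
        (ht0.trans_le (interior_subset hs).1)).differentiableAt.differentiableWithinAt)
      fun s hs => ?_
    rw [interior_Icc] at hs
    have hs0 : 0 < s := ht0.trans hs.1
    have hx := ray_ne hω hs0
    rw [(H.ms_deriv S hω hs0).deriv]
    obtain ⟨h1, h2⟩ := hreg s hs.1 hs.2.le
    obtain ⟨d1, d2, d3⟩ := D _ hx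
    have h3 := H.dr_u_neg hx
    have h4 := H.dr_v_pos S hx
    have h5 : 0 ≤ dr u (s • ω) * (f s * einUV Ω r (u (s • ω), v (s • ω)) -
          g s * einUU Ω r (u (s • ω), v (s • ω))) := by
      refine mul_nonneg_of_nonpos_of_nonpos h3.le ?_
      have e1 := mul_nonneg (neg_nonneg.2 h1.le) d2
      have e2 := mul_nonneg h2.le d1
      linarith
    have h6 : 0 ≤ dr v (s • ω) * (g s * einUV Ω r (u (s • ω), v (s • ω)) -
          f s * einVV Ω r (u (s • ω), v (s • ω))) := by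
      refine mul_nonneg h4.le ?_
      have e1 := mul_nonneg h2.le d2
      have e2 := mul_nonneg (neg_nonneg.2 h1.le) d3
      linarith
    exact mul_nonneg (by positivity) (add_nonneg h5 h6)
  have h7 := hmono (left_mem_Icc.2 htb.le) (right_mem_Icc.2 htb.le) htb.le
  have h8 : msMass Ω r (u (t • ω), v (t • ω)) = r (u (t • ω), v (t • ω)) / 2 := by
    unfold msMass
    have : pu r (u (t • ω), v (t • ω)) * pv r (u (t • ω), v (t • ω)) = 0 := by
      rcases hor with h | h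
      · rw [show pu r (u (t • ω), v (t • ω)) = 0 from h, zero_mul]
      · rw [show pv r (u (t • ω), v (t • ω)) = 0 from h, mul_zero]
    rw [this]
    ring
  simp only at h7
  rw [h8] at h7
  exact h7

/-! ### bounds -/

theorem quad_bound {M : Matrix (Fin 3) (Fin 3) ℝ} {c : ℝ} (hM : ∀ i j, |M i j - kd i j| ≤ c)
    (t : E) : |quad M t - ‖t‖ ^ 2| ≤ 9 * c * ‖t‖ ^ 2 := by
  have hc : 0 ≤ c := (abs_nonneg _).trans (hM 0 0)
  have e : quad M t - ‖t‖ ^ 2 = ∑ i, ∑ j, (M i j - kd i j) * t i * t j := by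
    rw [norm_sq_eq t]
    unfold quad
    simp only [Fin.sum_univ_three, kd, if_true, Fin.reduceEq, if_false]
    ring
  have hb : ∀ i j, |(M i j - kd i j) * t i * t j| ≤ c * ‖t‖ ^ 2 := by
    intro i j
    have h1 : |t i| ≤ ‖t‖ := PiLp.norm_apply_le t i
    have h2 : |t j| ≤ ‖t‖ := PiLp.norm_apply_le t j
    rw [abs_mul, abs_mul, pow_two, ← mul_assoc]
    exact mul_le_mul (mul_le_mul (hM i j) h1 (abs_nonneg _) hc) h2 (abs_nonneg _)
      (by positivity)
  rw [e]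
  calc |∑ i, ∑ j, (M i j - kd i j) * t i * t j| ≤
        ∑ i : Fin 3, |∑ j, (M i j - kd i j) * t i * t j| := Finset.abs_sum_le_sum_abs _ _
    _ ≤ ∑ i : Fin 3, ∑ j : Fin 3, |(M i j - kd i j) * t i * t j| :=
        Finset.sum_le_sum fun i _ => Finset.abs_sum_le_sum_abs _ _
    _ ≤ ∑ i : Fin 3, ∑ j : Fin 3, c * ‖t‖ ^ 2 :=
        Finset.sum_le_sum fun i _ => Finset.sum_le_sum fun j _ => hb i j
    _ = 9 * c * ‖t‖ ^ 2 := by
        simp only [Finset.sum_const, Finset.card_univ, Fintype.card_fin, nsmul_eq_mul]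
        push_cast
        ring

theorem exists_tangential (a b : Fin 3 → ℝ) :
    ∃ t : E, t ≠ 0 ∧ ∑ i, a i * t i = 0 ∧ ∑ i, b i * t i = 0 := by
  set f : E →ₗ[ℝ] ℝ × ℝ := (∑ i, a i • (pr i).toLinearMap).prod (∑ i, b i • (pr i).toLinearMap)
    with hf
  have h1 : LinearMap.ker f ≠ ⊥ := by
    apply LinearMap.ker_ne_bot_of_finrank_lt
    simp
  obtain ⟨t, ht, h0⟩ := (Submodule.ne_bot_iff _).1 h1
  rw [LinearMap.mem_ker] at ht
  have h2 := congrArg Prod.fst ht
  have h3 := congrArg Prod.snd ht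
  refine ⟨t, h0, ?_, ?_⟩
  · simpa [hf, pr, Fin.sum_univ_three] using h2
  · simpa [hf, pr, Fin.sum_univ_three] using h3

/-- The three bounds derived from asymptotic flatness. -/
theorem flat_bounds {c : ℝ} {x : E} (hx : x ≠ 0)
    (h : ∀ i j, |slice Ω r u v x i j - kd i j| ≤ c) :
    |hrad (slice Ω r u v) x - 1| ≤ 9 * c ∧ |(r (u x, v x)) ^ 2 / ‖x‖ ^ 2 - 1| ≤ 9 * c ∧
      |qq (slice Ω r u v) x - 2| ≤ 12 * c := by
  have hr : 0 < ‖x‖ := norm_pos_iff.2 hx
  have key : ∀ (t : E) (k : ℝ), t ≠ 0 → quad (slice Ω r u v x) t = k * ‖t‖ ^ 2 →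
      |k - 1| ≤ 9 * c := by
    intro t k ht hk
    have h1 := quad_bound h t
    rw [hk, show k * ‖t‖ ^ 2 - ‖t‖ ^ 2 = (k - 1) * ‖t‖ ^ 2 by ring, abs_mul,
      abs_of_nonneg (by positivity : (0:ℝ) ≤ ‖t‖ ^ 2)] at h1
    have h2 : 0 < ‖t‖ ^ 2 := by have := norm_pos_iff.2 ht; positivity
    exact le_of_mul_le_mul_right h1 h2
  have h1 : |hrad (slice Ω r u v) x - 1| ≤ 9 * c :=
    key x _ hx ((hrad_eq_quad _ x).resolve_right hx).symm
  refine ⟨h1, ?_, ?_⟩
  · obtain ⟨t, ht, h2, h3⟩ := exists_tangential (fun i => x i) (fun i => pd i u x)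
    exact key t _ ht (quad_slice_tangential h2 h3)
  · have h4 : |tr0 (slice Ω r u v) x - 3| ≤ 3 * c := by
      have e : tr0 (slice Ω r u v) x - 3 = (slice Ω r u v x 0 0 - kd 0 0) +
          (slice Ω r u v x 1 1 - kd 1 1) + (slice Ω r u v x 2 2 - kd 2 2) := by
        unfold tr0
        simp only [Fin.sum_univ_three, kd, if_true]
        ring
      rw [e]
      refine (abs_add_three _ _ _).trans ?_
      have := h 0 0
      have := h 1 1
      have := h 2 2
      linarith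
    unfold qq
    rw [abs_le] at h1 h4 ⊢
    constructor <;> linarith [h1.1, h1.2, h4.1, h4.2]

end

end Pool.Agent.V8H95.PI
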