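import Pool.Agent.V8H95.PI.SliceFar

/-!
# Hypersurfaces: the main argument
-/

set_option autoImplicit false

namespace Pool.Agent.V8H95.PI

open Pool.Agent.K4H63.PI
open scoped BigOperators Topology ENNReal
open Matrix Filter Set MeasureTheory

section

variable {Q : Set (ℝ × ℝ)} {Ω r : ℝ × ℝ → ℝ} {u v : E → ℝ}

theorem exists_of_cocompact {p : E → Prop} (h : ∀ᶠ x in cocompact E, p x) :
    ∃ M : ℝ, 1 ≤ M ∧ ∀ x : E, M ≤ ‖x‖ → p x := by
  rw [← Metric.cobounded_eq_cocompact] at h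
  obtain ⟨M, hM⟩ := (Metric.hasBasis_cobounded_compl_closedBall (0 : E)).eventually_iff.1 h
  refine ⟨max 1 (M + 1), le_max_left _ _, fun x hx => hM.2 ?_⟩
  rw [mem_compl_iff, mem_closedBall_zero_iff, not_le]
  have := (le_max_right 1 (M + 1)).trans hx
  linarith

/-- Summary of the asymptotic bounds, with the constant `c`. -/
structure Bounds (Ω r : ℝ × ℝ → ℝ) (u v : E → ℝ) (c M : ℝ) : Prop where
  cpos : 0 ≤ c
  M1 : 1 ≤ M
  A : ∀ x : E, M ≤ ‖x‖ → |hrad (slice Ω r u v) x - 1| ≤ c / ‖x‖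
  k : ∀ x : E, M ≤ ‖x‖ → |(r (u x, v x)) ^ 2 / ‖x‖ ^ 2 - 1| ≤ c / ‖x‖
  q : ∀ x : E, M ≤ ‖x‖ → |qq (slice Ω r u v) x - 2| ≤ 2 * c / ‖x‖
  n : ∀ x : E, M ≤ ‖x‖ → ‖x‖ * (normalRadius Ω r u v x) ^ 2 ≤ 1

theorem exists_bounds {m : ℝ} (F : FlatSlice Ω r u v m) : ∃ c M : ℝ, Bounds Ω r u v c M := by
  obtain ⟨C, hC⟩ := F.metric
  obtain ⟨M, hM1, hM⟩ := exists_of_cocompact (F.normal.eventually_le_const (u := 1) one_pos)
  have h0 : ∀ x : E, M ≤ ‖x‖ → x ≠ 0 := fun x hx h => by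
    rw [h, norm_zero] at hx
    linarith
  have hC0 : 0 ≤ C := by
    have h1 := hC (EuclideanSpace.single 0 1) (by simp) 0 0
    have h2 : ‖(EuclideanSpace.single 0 1 : E)‖ = 1 := by simp
    rw [h2, div_one] at h1
    exact (abs_nonneg _).trans h1
  refine ⟨9 * C, M, by positivity, hM1, fun x hx => ?_, fun x hx => ?_, fun x hx => ?_, hM⟩
  · have := (flat_bounds (h0 x hx) (hC x (hM1.trans hx))).1
    rwa [← mul_div_assoc] at this
  · have := (flat_bounds (h0 x hx) (hC x (hM1.trans hx))).2.1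
    rwa [← mul_div_assoc] at this
  · have h1 := (flat_bounds (h0 x hx) (hC x (hM1.trans hx))).2.2
    refine h1.trans ?_
    have h2 : 0 ≤ C / ‖x‖ := by positivity
    calc 12 * (C / ‖x‖) ≤ 18 * (C / ‖x‖) := by linarith
      _ = 2 * (9 * C) / ‖x‖ := by ring

theorem Bounds.ne {c M : ℝ} (B : Bounds Ω r u v c M) {x : E} (hx : M ≤ ‖x‖) : x ≠ 0 := fun h => by
  rw [h, norm_zero] at hx
  linarith [B.M1]

/-- `| r - |x| | ≤ c`. -/
theorem Bounds.radius {c M : ℝ} (B : Bounds Ω r u v c M) (S : Spacetime Q Ω r)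
    (H : Hypersurface Q Ω r u v) {x : E} (hx : M ≤ ‖x‖) :
    |r (u x, v x) / ‖x‖ - 1| ≤ c / ‖x‖ ∧ |r (u x, v x) - ‖x‖| ≤ c := by
  have hn : 0 < ‖x‖ := norm_pos_iff.2 (B.ne hx)
  have hr := S.radius_pos _ (H.maps x (B.ne hx))
  have h1 := B.k x hx
  have hb : 0 < r (u x, v x) / ‖x‖ := by positivity
  have h2 : |r (u x, v x) / ‖x‖ - 1| ≤ c / ‖x‖ := by
    rw [show (r (u x, v x)) ^ 2 / ‖x‖ ^ 2 - 1 =
      (r (u x, v x) / ‖x‖ - 1) * (r (u x, v x) / ‖x‖ + 1) by ring, abs_mul,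
      abs_of_pos (by linarith : 0 < r (u x, v x) / ‖x‖ + 1)] at h1
    refine le_trans ?_ h1
    exact le_mul_of_one_le_right (abs_nonneg _) (by linarith)
  refine ⟨h2, ?_⟩
  have h3 : r (u x, v x) - ‖x‖ = (r (u x, v x) / ‖x‖ - 1) * ‖x‖ := by field_simp
  rw [h3, abs_mul, abs_of_pos hn]
  calc |r (u x, v x) / ‖x‖ - 1| * ‖x‖ ≤ c / ‖x‖ * ‖x‖ := mul_le_mul_of_nonneg_right h2 hn.le
    _ = c := by field_simp

/-- Regular points with bounded mass, arbitrarily far out on each ray. -/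
theorem Bounds.good {c M : ℝ} (B : Bounds Ω r u v c M) (S : Spacetime Q Ω r)
    (H : Hypersurface Q Ω r u v) {ω : E} (hω : ‖ω‖ = 1) {s : ℝ} (hs : M ≤ s) (hs9 : 9 ≤ s)
    (hs8 : 8 * c ≤ s) : ∃ ξ, s < ξ ∧ Regular r u v (ξ • ω) ∧
      msMass Ω r (u (ξ • ω), v (ξ • ω)) ≤ (1 + c) * (9 * c + 1) / 2 := by
  have hc := B.cpos
  have hs0 : 0 < s := by linarith
  set R : E → ℝ := fun y => r (u y, v y) with hR
  have hd : ∀ t, s ≤ t → HasDerivAt (fun t : ℝ => R (t • ω)) (dr R (t • ω)) t := fun t ht =>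
    hasDerivAt_ray hω (by linarith) ((H.R_at S (ray_ne hω (by linarith))).differentiableAt
      (by norm_num))
  obtain ⟨ξ, hξ, hξd⟩ := exists_hasDerivAt_eq_slope (fun t : ℝ => R (t • ω))
    (fun t => dr R (t • ω)) (by linarith : s < 2 * s)
    (fun t ht => (hd t ht.1).continuousAt.continuousWithinAt)
    (fun t ht => hd t ht.1.le)
  have hξ0 : 0 < ξ := by linarith [hξ.1]
  have hx := ray_ne hω hξ0
  have hn := ray_norm hω hξ0
  have hMξ : M ≤ ‖ξ • ω‖ := by rw [hn]; linarith [hξ.1]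
  have r1 := (B.radius S H (x := s • ω) (by rw [ray_norm hω hs0]; exact hs)).2
  have r2 := (B.radius S H (x := (2 * s) • ω)
    (by rw [ray_norm hω (by linarith : (0:ℝ) < 2 * s)]; linarith)).2
  rw [ray_norm hω hs0] at r1
  rw [ray_norm hω (by linarith : (0:ℝ) < 2 * s)] at r2
  have hcξ : c / ξ ≤ 1 / 8 := by
    rw [div_le_iff₀ hξ0]
    linarith [hξ.1]
  have hcξ0 : 0 ≤ c / ξ := by positivity
  -- the radial derivative of the area radius
  have hRs : 1 - 4 * (c / ξ) ≤ dr R (ξ • ω) := by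
    rw [hξd]
    have e1 : s - 2 * c ≤ R ((2 * s) • ω) - R (s • ω) := by
      have := (abs_le.1 r1).2
      have := (abs_le.1 r2).1
      simp only [hR]
      linarith
    have e2 : c / s ≤ 2 * (c / ξ) := by
      rw [← mul_div_assoc, div_le_div_iff₀ hs0 hξ0]
      have := mul_le_mul_of_nonneg_left hξ.2.le hc
      linarith
    calc 1 - 4 * (c / ξ) ≤ 1 - 2 * (c / s) := by linarith
      _ = (s - 2 * c) / (2 * s - s) := by field_simp; ring
      _ ≤ _ := div_le_div_of_nonneg_right e1 (by linarith)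
  have hA := B.A _ hMξ
  have hNn := B.n _ hMξ
  have hRad := (B.radius S H hMξ).2
  rw [hn] at hA hNn hRad
  have hApos := H.hrad_pos hx
  set A := hrad (slice Ω r u v) (ξ • ω) with hAdef
  set Rs := dr R (ξ • ω) with hRsdef
  set N2 := (normalRadius Ω r u v (ξ • ω)) ^ 2 with hN2
  have hN20 : 0 ≤ N2 := by positivity
  have hA1 : A ≤ 1 + c / ξ := by linarith [(abs_le.1 hA).2]
  have hN1 : N2 ≤ 1 / ξ := by
    rw [le_div_iff₀ hξ0]; linarith
  have hξ9 : 1 / ξ ≤ 1 / 9 := one_div_le_one_div_of_le (by norm_num) (by linarith [hξ.1])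
  have hRs2 : 1 / 2 ≤ Rs := by linarith
  have hms := H.ms_eq S hx
  refine ⟨ξ, hξ.1, ?_, ?_⟩
  · -- regularity
    have h1 : A * N2 < Rs ^ 2 := by
      calc A * N2 ≤ (1 + 1 / 8) * (1 / 9) := by
            refine mul_le_mul (by linarith) (by linarith) hN20 (by norm_num)
        _ < (1 / 2) ^ 2 := by norm_num
        _ ≤ Rs ^ 2 := pow_le_pow_left₀ (by norm_num) hRs2 2
    have h2 : A * N2 = (pv r (u (ξ • ω), v (ξ • ω)) * dr v (ξ • ω) -
        pu r (u (ξ • ω), v (ξ • ω)) * dr u (ξ • ω)) ^ 2 := by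
      rw [hN2]
      unfold normalRadius
      rw [div_pow, Real.sq_sqrt hApos.le]
      field_simp
    have h3 : Rs = dr u (ξ • ω) * pu r (u (ξ • ω), v (ξ • ω)) +
        dr v (ξ • ω) * pv r (u (ξ • ω), v (ξ • ω)) := H.dr_R S hx
    have h4 := H.dr_u_neg hx
    have h5 := H.dr_v_pos S hx
    set a := dr u (ξ • ω)
    set b := dr v (ξ • ω)
    set p := pu r (u (ξ • ω), v (ξ • ω))
    set q := pv r (u (ξ • ω), v (ξ • ω))
    rw [h2, h3] at h1
    have h6 : 0 < (a * p) * (b * q) := by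
      have e : (a * p + b * q) ^ 2 - (q * b - p * a) ^ 2 = 4 * ((a * p) * (b * q)) := by ring
      linarith
    have h7 : 0 < a * p := by
      by_contra h8
      have h9 : a * p ≤ 0 := not_lt.1 h8
      have h10 : 0 < b * q := by linarith
      have h11 := mul_nonpos_of_nonpos_of_nonneg h9 h10.le
      linarith
    have h8 : 0 < b * q := (mul_pos_iff_of_pos_left h7).1 h6
    refine ⟨?_, (mul_pos_iff_of_pos_left h5).1 h8⟩
    by_contra h9
    have h10 : 0 ≤ p := not_lt.1 h9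
    have h11 := mul_nonpos_of_nonpos_of_nonneg h4.le h10
    linarith
  · rw [hms]
    have h1 : 1 - 9 * (c / ξ) ≤ Rs ^ 2 / A := by
      rw [le_div_iff₀ hApos]
      have e1 : (1 - 4 * (c / ξ)) ^ 2 ≤ Rs ^ 2 := pow_le_pow_left₀ (by linarith) hRs 2
      by_cases h9 : 1 - 9 * (c / ξ) ≤ 0
      · exact (mul_nonpos_of_nonpos_of_nonneg h9 hApos.le).trans (by positivity)
      · have e2 : (1 - 9 * (c / ξ)) * A ≤ (1 - 9 * (c / ξ)) * (1 + c / ξ) :=
          mul_le_mul_of_nonneg_left hA1 (not_le.1 h9).le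
        nlinarith
    have h2 : 1 - Rs ^ 2 / A + N2 ≤ (9 * c + 1) / ξ := by
      have : (9 * c + 1) / ξ = 9 * (c / ξ) + 1 / ξ := by ring
      rw [this]
      linarith
    have h3 : r (u (ξ • ω), v (ξ • ω)) ≤ (1 + c) * ξ := by
      have := (abs_le.1 hRad).2
      nlinarith [hξ.1]
    have h4 := S.radius_pos _ (H.maps _ hx)
    calc r (u (ξ • ω), v (ξ • ω)) / 2 * (1 - Rs ^ 2 / A + N2) ≤
          r (u (ξ • ω), v (ξ • ω)) / 2 * ((9 * c + 1) / ξ) :=
          mul_le_mul_of_nonneg_left h2 (by positivity)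
      _ ≤ (1 + c) * ξ / 2 * ((9 * c + 1) / ξ) := by
          refine mul_le_mul_of_nonneg_right ?_ (by positivity)
          linarith
      _ = (1 + c) * (9 * c + 1) / 2 := by field_simp

/-- All points far out are regular. -/
theorem Bounds.regular {c M : ℝ} (B : Bounds Ω r u v c M) (S : Spacetime Q Ω r)
    (H : Hypersurface Q Ω r u v) (D : EnergyCond Ω r u v) :
    ∃ R₁ : ℝ, 0 < R₁ ∧ M ≤ R₁ ∧ ∀ x : E, R₁ ≤ ‖x‖ → Regular r u v x := by
  set C₂ := (1 + c) * (9 * c + 1) / 2 with hC₂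
  set R₁ := max (max M 9) (max (8 * c) (2 * C₂ + c + 1)) with hR₁
  have h1 : M ≤ R₁ := (le_max_left _ _).trans (le_max_left _ _)
  have h2 : 9 ≤ R₁ := (le_max_right _ _).trans (le_max_left _ _)
  have h3 : 8 * c ≤ R₁ := (le_max_left _ _).trans (le_max_right _ _)
  have h4 : 2 * C₂ + c + 1 ≤ R₁ := (le_max_right _ _).trans (le_max_right _ _)
  refine ⟨R₁, by linarith, h1, fun x hx => ?_⟩
  by_contra hnr
  have hx0 : x ≠ 0 := B.ne (h1.trans hx)
  have hn : 0 < ‖x‖ := norm_pos_iff.2 hx0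
  set ω : E := ‖x‖⁻¹ • x with hωdef
  have hω : ‖ω‖ = 1 := by
    rw [hωdef, norm_smul, norm_inv, norm_norm, inv_mul_cancel₀ hn.ne']
  have hxω : x = ‖x‖ • ω := by
    rw [hωdef, smul_smul, mul_inv_cancel₀ hn.ne', one_smul]
  obtain ⟨ξ, hξ, hreg, hms⟩ := B.good S H hω (h1.trans hx) (h2.trans hx) (h3.trans hx)
  rw [hxω] at hnr
  obtain ⟨t, ht1, ht2, _, _, _, hle⟩ := segment S H D hω hn hξ.le hnr hreg
  have ht0 : 0 < t := hn.trans_le ht1
  have h5 := (B.radius S H (x := t • ω) (by rw [ray_norm hω ht0]; linarith)).2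
  rw [ray_norm hω ht0] at h5
  have h6 := (abs_le.1 h5).1
  linarith

end

end Pool.Agent.V8H95.PI
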