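import Pool.Agent.V8H95.PI.Perim

/-!
# The area of the boundary of a sublevel set which is a radial graph
-/

set_option autoImplicit false

namespace Pool.Agent.V8H95.PI

open Pool.Agent.K4H63.PI
open scoped BigOperators Topology ENNReal
open Matrix Filter Set MeasureTheory

/-- The cutoff `χ ((c - w) / ε)`. -/
noncomputable def eta (w : E → ℝ) (c ε : ℝ) (x : E) : ℝ := Real.smoothTransition ((c - w x) / ε)

theorem eta_nonneg (w : E → ℝ) (c ε : ℝ) (x : E) : 0 ≤ eta w c ε x := Real.smoothTransition.nonneg _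

theorem eta_le_one (w : E → ℝ) (c ε : ℝ) (x : E) : eta w c ε x ≤ 1 :=
  Real.smoothTransition.le_one _

theorem eta_contDiffOn {w : E → ℝ} (hw : ContDiffOn ℝ 1 w {0}ᶜ) (c ε : ℝ) :
    ContDiffOn ℝ 1 (eta w c ε) {0}ᶜ := by
  unfold eta
  exact (Real.smoothTransition.contDiff (n := 1)).comp_contDiffOn
    ((contDiffOn_const.sub hw).div_const ε)

theorem eta_fderiv {w : E → ℝ} (hw : ContDiffOn ℝ 1 w {0}ᶜ) (c ε : ℝ) {x : E} (hx : x ≠ 0)
    (v : E) : fderiv ℝ (eta w c ε) x v =
      -(deriv Real.smoothTransition ((c - w x) / ε) / ε * fderiv ℝ w x v) := by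
  have h1 : DifferentiableAt ℝ w x :=
    (hw.contDiffAt (isOpen_compl_singleton.mem_nhds hx)).differentiableAt (by norm_num)
  have h2 : HasFDerivAt (fun y => (c - w y) / ε) (ε⁻¹ • (-(fderiv ℝ w x))) x := by
    have := (h1.hasFDerivAt.const_sub c).const_mul ε⁻¹
    refine this.congr_of_eventuallyEq (Eventually.of_forall fun y => ?_)
    simp only
    rw [div_eq_inv_mul]
  have h3 : HasDerivAt Real.smoothTransition (deriv Real.smoothTransition ((c - w x) / ε))
      ((c - w x) / ε) :=
    ((Real.smoothTransition.contDiff (n := 1)).differentiable (by norm_num)).differentiableAt.hasDerivAt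
  have h4 := h3.comp_hasFDerivAt x h2
  have h5 : fderiv ℝ (eta w c ε) x = _ := h4.fderiv
  rw [h5]
  simp only [_root_.smul_apply, _root_.neg_apply, smul_eq_mul]
  ring

theorem eta_tendsto (w : E → ℝ) (c : ℝ) (x : E) :
    Tendsto (fun ε => eta w c ε x) (𝓝[>] 0) (𝓝 (if w x < c then 1 else 0)) := by
  split_ifs with h
  · refine tendsto_const_nhds.congr' ?_
    filter_upwards [Ioo_mem_nhdsGT (show (0:ℝ) < c - w x by linarith)] with ε hε
    unfold eta
    rw [Real.smoothTransition.one_of_one_le]
    rw [le_div_iff₀ hε.1]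
    linarith [hε.2]
  · refine tendsto_const_nhds.congr' ?_
    filter_upwards [self_mem_nhdsWithin] with ε hε
    unfold eta
    rw [Real.smoothTransition.zero_of_nonpos]
    exact div_nonpos_of_nonpos_of_nonneg (by linarith) (le_of_lt hε)

/-- The polar form of integrals of continuous functions supported in an annulus. -/
theorem polar_le {Θ : E → ℝ} (hΘ : Continuous Θ) {a b B : ℝ} (ha : 0 < a) (hab : a ≤ b)
    (hs : ∀ x, Θ x ≠ 0 → a ≤ ‖x‖ ∧ ‖x‖ ≤ b)
    (hB : ∀ ω : E, ‖ω‖ = 1 → ∫ r in a..b, r ^ 2 * Θ (r • ω) ≤ B) :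
    ∫ x, Θ x ≤ 4 * Real.pi * B := by
  have hc : HasCompactSupport Θ := by
    refine HasCompactSupport.intro (isCompact_closedBall (0 : E) b) fun x hx => ?_
    by_contra h
    exact hx (mem_closedBall_zero_iff.2 (hs x h).2)
  rw [integral_polar (hΘ.integrable_of_hasCompactSupport hc)]
  have e1 : ∫ r in Ioi (0:ℝ), r ^ 2 * ∫ ω, Θ (r • (ω : E)) ∂sph =
      ∫ r in Icc a b, ∫ ω, r ^ 2 * Θ (r • (ω : E)) ∂sph := by
    have h1 : ∀ r, r ∈ Ioi (0:ℝ) → r ∉ Icc a b → r ^ 2 * ∫ ω, Θ (r • (ω : E)) ∂sph = 0 := by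
      intro r hr hn
      have : ∀ ω : Metric.sphere (0 : E) 1, Θ (r • (ω : E)) = 0 := by
        intro ω
        by_contra h
        have := hs _ h
        rw [ray_norm (sphere_norm ω) hr] at this
        exact hn this
      simp [this]
    rw [← integral_indicator measurableSet_Ioi, ← integral_indicator measurableSet_Icc]
    refine integral_congr_ae (Eventually.of_forall fun r => ?_)
    simp only [indicator]
    by_cases h0 : r ∈ Icc a b
    · rw [if_pos h0, if_pos (show r ∈ Ioi (0:ℝ) from lt_of_lt_of_le ha h0.1),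
        integral_const_mul]
    · rw [if_neg h0]
      split_ifs with h2
      · exact h1 r h2 h0
      · rfl
  rw [e1]
  have hcont : Continuous (fun z : ℝ × Metric.sphere (0 : E) 1 => z.1 ^ 2 * Θ (z.1 • (z.2 : E))) := by
    fun_prop
  have hint : Integrable (fun z : ℝ × Metric.sphere (0 : E) 1 => z.1 ^ 2 * Θ (z.1 • (z.2 : E)))
      ((volume.restrict (Icc a b)).prod sph) := by
    have h1 : IntegrableOn (fun z : ℝ × Metric.sphere (0 : E) 1 => z.1 ^ 2 * Θ (z.1 • (z.2 : E)))
        (Icc a b ×ˢ univ) (volume.prod sph) :=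
      hcont.continuousOn.integrableOn_compact (isCompact_Icc.prod isCompact_univ)
    rw [IntegrableOn, ← Measure.prod_restrict, Measure.restrict_univ] at h1
    exact h1
  rw [integral_integral_swap (f := fun (r : ℝ) (ω : Metric.sphere (0 : E) 1) =>
    r ^ 2 * Θ (r • (ω : E))) hint]
  have h2 : ∀ ω : Metric.sphere (0 : E) 1, ∫ r in Icc a b, r ^ 2 * Θ (r • (ω : E)) ≤ B := by
    intro ω
    rw [integral_Icc_eq_integral_Ioc, ← intervalIntegral.integral_of_le hab]
    exact hB ω (sphere_norm ω)
  calc ∫ ω, (∫ r in Icc a b, r ^ 2 * Θ (r • (ω : E))) ∂sph ≤ ∫ ω, B ∂sph := by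
        refine integral_mono hint.integral_prod_right (integrable_const _) h2
    _ = 4 * Real.pi * B := by
        rw [integral_const, sph_real_univ, smul_eq_mul]

theorem area_sublevel_le {G : E → Matrix (Fin 3) (Fin 3) ℝ} {w : E → ℝ} {c B : ℝ}
    (hG : ContDiffOn ℝ 1 (fun x => Real.sqrt (G x).det) {0}ᶜ)
    (hw : ContDiffOn ℝ 1 w {0}ᶜ)
    (hmono : ∀ x : E, x ≠ 0 → 0 ≤ fderiv ℝ w x x)
    (hB : ∀ B' > B, ∀ a b : ℝ, 0 < a → a ≤ b → ∃ ε₀ > 0, ∀ x : E, a ≤ ‖x‖ → ‖x‖ ≤ b →
      c - ε₀ ≤ w x → w x ≤ c → ∀ v : E, quad (G x) v ≤ 1 →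
        Real.sqrt (G x).det * fderiv ℝ w x v * ‖x‖ ^ 3 ≤ B' * fderiv ℝ w x x)
    (hB0 : 0 ≤ B) :
    area {0} G ({0}ᶜ ∩ {x | w x < c}) ≤ ENNReal.ofReal (4 * Real.pi * B) := by
  unfold area
  refine iSup₂_le fun X hX => ?_
  refine ENNReal.ofReal_le_ofReal ?_
  have hpi := Real.pi_pos
  refine le_of_forall_gt_imp_ge_of_dense fun D hD => ?_
  set B' : ℝ := D / (4 * Real.pi) with hB'
  have hBB : B' > B := by
    rw [hB', gt_iff_lt, lt_div_iff₀ (by positivity)]
    linarith
  have hD' : D = 4 * Real.pi * B' := by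
    rw [hB']; field_simp
  have hB'0 : 0 ≤ B' := hB0.trans hBB.le
  -- an annulus containing the support of `X`
  obtain ⟨a, b, ha, hab, hsupp⟩ : ∃ a b : ℝ, 0 < a ∧ a ≤ b ∧
      ∀ x ∈ tsupport X, a ≤ ‖x‖ ∧ ‖x‖ ≤ b := by
    rcases (tsupport X).eq_empty_or_nonempty with he | hne
    · exact ⟨1, 1, one_pos, le_rfl, fun x hx => by rw [he] at hx; exact absurd hx (notMem_empty _)⟩
    · obtain ⟨p, hp, hmin⟩ := hX.compact.isCompact.exists_isMinOn hne continuous_norm.continuousOn
      obtain ⟨q, hq, hmax⟩ := hX.compact.isCompact.exists_isMaxOn hne continuous_norm.continuousOn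
      exact ⟨‖p‖, ‖q‖, norm_pos_iff.2 (hX.away hp), hmin hq, fun x hx => ⟨hmin hx, hmax hx⟩⟩
  obtain ⟨ε₀, hε₀, hb⟩ := hB B' hBB a b ha hab
  -- the integrals with the cutoff
  have hcut : ∀ ε, 0 < ε → ε ≤ ε₀ → ∫ x, eta w c ε x * divg G X x ≤ 4 * Real.pi * B' := by
    intro ε hε hεε
    rw [integral_mul_divg hG hX (eta_contDiffOn hw c ε), ← integral_neg]
    set k : E → ℝ := fun x => deriv Real.smoothTransition ((c - w x) / ε) / ε with hk
    have hk0 : ∀ x, 0 ≤ k x := fun x => div_nonneg (smoothTransition_deriv_nonneg _) hε.le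
    set Θ : E → ℝ := fun x => -(Real.sqrt (G x).det * fderiv ℝ (eta w c ε) x (X x)) with hΘ
    have hXs : ∀ x, X x ≠ 0 → x ∈ tsupport X := fun x hx => subset_tsupport X hx
    have hΘs : ∀ x, Θ x ≠ 0 → a ≤ ‖x‖ ∧ ‖x‖ ≤ b := by
      intro x hx
      apply hsupp x
      apply hXs
      intro h
      apply hx
      simp [hΘ, h]
    have hΘc : Continuous Θ := by
      have h1 : Θ = fun x => -∑ i, pd i (eta w c ε) x * (Real.sqrt (G x).det * X x i) := by
        funext x
        simp only [hΘ]
        congr 1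
        have hx : X x = ∑ i, X x i • EuclideanSpace.single i (1 : ℝ) := by
          ext j
          simp [Finset.sum_apply, Pi.single_apply]
        conv_lhs => rw [hx]
        rw [map_sum, Finset.mul_sum]
        refine Finset.sum_congr rfl fun i _ => ?_
        rw [map_smul, smul_eq_mul]
        unfold pd
        ring
      rw [h1]
      refine Continuous.neg (continuous_finsetSum _ fun i _ => ?_)
      exact mul_cont (pd_cont (eta_contDiffOn hw c ε) i) (dens_contDiff hG hX i).continuous
        ((dens_tsupport i).trans hX.away)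
    refine polar_le hΘc ha hab hΘs ?_
    intro ω hω
    have hder : ∀ r, 0 < r → HasDerivAt (fun s : ℝ => eta w c ε (s • ω))
        (-(k (r • ω) * fderiv ℝ w (r • ω) ω)) r := by
      intro r hr
      have hx := ray_ne hω hr
      have h1 : DifferentiableAt ℝ (eta w c ε) (r • ω) :=
        ((eta_contDiffOn hw c ε).contDiffAt
          (isOpen_compl_singleton.mem_nhds hx)).differentiableAt (by norm_num)
      have h2 : HasDerivAt (fun s : ℝ => s • ω) ω r := by
        simpa using (hasDerivAt_id r).smul_const ω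
      have h3 := h1.hasFDerivAt.comp_hasDerivAt r h2
      rw [eta_fderiv hw c ε hx] at h3
      exact h3
    have hray : ContinuousOn (fun r : ℝ => -(k (r • ω) * fderiv ℝ w (r • ω) ω)) (Icc a b) := by
      have hr0 : ∀ r ∈ Icc a b, r • ω ∈ ({0}ᶜ : Set E) := fun r hr =>
        ray_ne hω (ha.trans_le hr.1)
      have hwr : ContinuousOn (fun r : ℝ => w (r • ω)) (Icc a b) :=
        hw.continuousOn.comp (by fun_prop) hr0
      have hfr : ContinuousOn (fun r : ℝ => fderiv ℝ w (r • ω)) (Icc a b) :=
        (hw.continuousOn_fderiv_of_isOpen isOpen_compl_singleton (by norm_num)).comp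
          (by fun_prop) hr0
      have hdc : Continuous (deriv Real.smoothTransition) :=
        (Real.smoothTransition.contDiff (n := 1)).continuous_deriv (by norm_num)
      refine ContinuousOn.neg (ContinuousOn.mul ?_ (hfr.clm_apply continuousOn_const))
      exact (hdc.comp_continuousOn ((continuousOn_const.sub hwr).div_const ε)).div_const ε
    have hpt : ∀ r ∈ Icc a b, r ^ 2 * Θ (r • ω) ≤ B' * (k (r • ω) * fderiv ℝ w (r • ω) ω) := by
      intro r hr
      have hr0 : 0 < r := ha.trans_le hr.1
      have hx := ray_ne hω hr0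
      have hn := ray_norm hω hr0
      have hfd : fderiv ℝ w (r • ω) (r • ω) = r * fderiv ℝ w (r • ω) ω := by
        rw [map_smul, smul_eq_mul]
      have hmω : 0 ≤ fderiv ℝ w (r • ω) ω := by
        have := hmono (r • ω) hx
        rw [hfd] at this
        exact nonneg_of_mul_nonneg_right this hr0
      have e1 : Θ (r • ω) = k (r • ω) * (Real.sqrt (G (r • ω)).det *
          fderiv ℝ w (r • ω) (X (r • ω))) := by
        simp only [hΘ, hk]
        rw [eta_fderiv hw c ε hx]
        ring
      rw [e1]
      by_cases hcase : (c - w (r • ω)) / ε ≤ 0 ∨ 1 ≤ (c - w (r • ω)) / ε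
      · have : k (r • ω) = 0 := by
          simp only [hk]
          rw [smoothTransition_deriv_zero hcase, zero_div]
        rw [this]
        simp
      · push Not at hcase
        have h1 : w (r • ω) ≤ c := by
          have := hcase.1
          rw [lt_div_iff₀ hε] at this
          linarith
        have h2 : c - ε₀ ≤ w (r • ω) := by
          have := hcase.2
          rw [div_lt_iff₀ hε] at this
          linarith
        have h3 := hb (r • ω) (by rw [hn]; exact hr.1) (by rw [hn]; exact hr.2) h2 h1 (X (r • ω))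
          (hX.unit _ hx)
        rw [hn, hfd] at h3
        have h4 : r ^ 2 * (Real.sqrt (G (r • ω)).det * fderiv ℝ w (r • ω) (X (r • ω))) ≤
            B' * fderiv ℝ w (r • ω) ω := by
          refine le_of_mul_le_mul_left ?_ hr0
          calc r * (r ^ 2 * (Real.sqrt (G (r • ω)).det * fderiv ℝ w (r • ω) (X (r • ω)))) =
                Real.sqrt (G (r • ω)).det * fderiv ℝ w (r • ω) (X (r • ω)) * r ^ 3 := by ring
            _ ≤ B' * (r * fderiv ℝ w (r • ω) ω) := h3
            _ = r * (B' * fderiv ℝ w (r • ω) ω) := by ring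
        calc r ^ 2 * (k (r • ω) * (Real.sqrt (G (r • ω)).det *
              fderiv ℝ w (r • ω) (X (r • ω)))) = k (r • ω) * (r ^ 2 *
              (Real.sqrt (G (r • ω)).det * fderiv ℝ w (r • ω) (X (r • ω)))) := by ring
          _ ≤ k (r • ω) * (B' * fderiv ℝ w (r • ω) ω) :=
              mul_le_mul_of_nonneg_left h4 (hk0 _)
          _ = B' * (k (r • ω) * fderiv ℝ w (r • ω) ω) := by ring
    have hint1 : IntervalIntegrable (fun r : ℝ => r ^ 2 * Θ (r • ω)) volume a b :=
      Continuous.intervalIntegrable (by fun_prop) _ _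
    have hint2 : IntervalIntegrable (fun r : ℝ => -(k (r • ω) * fderiv ℝ w (r • ω) ω))
        volume a b := by
      apply ContinuousOn.intervalIntegrable
      rw [uIcc_of_le hab]
      exact hray
    have hftc : ∫ r in a..b, -(k (r • ω) * fderiv ℝ w (r • ω) ω) =
        eta w c ε (b • ω) - eta w c ε (a • ω) :=
      intervalIntegral.integral_eq_sub_of_hasDerivAt (fun r hr => by
        rw [uIcc_of_le hab] at hr
        exact hder r (ha.trans_le hr.1)) hint2
    calc ∫ r in a..b, r ^ 2 * Θ (r • ω) ≤
          ∫ r in a..b, (-B') * -(k (r • ω) * fderiv ℝ w (r • ω) ω) := by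
          refine intervalIntegral.integral_mono_on hab hint1 (hint2.const_mul _) ?_
          intro r hr
          have := hpt r hr
          linarith
      _ = B' * (eta w c ε (a • ω) - eta w c ε (b • ω)) := by
          rw [intervalIntegral.integral_const_mul, hftc]
          ring
      _ ≤ B' * 1 := by
          refine mul_le_mul_of_nonneg_left ?_ hB'0
          linarith [eta_nonneg w c ε (b • ω), eta_le_one w c ε (a • ω)]
      _ = B' := mul_one _
  -- the limit
  have hU : MeasurableSet ({0}ᶜ ∩ {x | w x < c}) := by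
    have : IsOpen ({0}ᶜ ∩ {x | w x < c}) :=
      hw.continuousOn.isOpen_inter_preimage isOpen_compl_singleton isOpen_Iio
    exact this.measurableSet
  have hlim : Tendsto (fun ε => ∫ x, eta w c ε x * divg G X x) (𝓝[>] 0)
      (𝓝 (∫ x in {0}ᶜ ∩ {x | w x < c}, divg G X x)) := by
    rw [← integral_indicator hU]
    refine tendsto_integral_filter_of_dominated_convergence (fun x => |divg G X x|) ?_ ?_ ?_ ?_
    · refine Eventually.of_forall fun ε => ?_
      exact (mul_cont (eta_contDiffOn hw c ε).continuousOn (divg_cont hG hX)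
        ((closure_minimal (fun x hx => by
          by_contra h
          exact hx (divg_support h)) (isClosed_tsupport X)).trans hX.away)).aestronglyMeasurable
    · refine Eventually.of_forall fun ε => Eventually.of_forall fun x => ?_
      rw [norm_mul, Real.norm_eq_abs, Real.norm_eq_abs, abs_of_nonneg (eta_nonneg w c ε x)]
      exact mul_le_of_le_one_left (abs_nonneg _) (eta_le_one w c ε x)
    · exact ((divg_cont hG hX).integrable_of_hasCompactSupport (divg_compact hX)).abs
    · refine Eventually.of_forall fun x => ?_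
      have h1 := (eta_tendsto w c x).mul_const (divg G X x)
      have h2 : (if w x < c then (1:ℝ) else 0) * divg G X x =
          ({0}ᶜ ∩ {x | w x < c}).indicator (divg G X) x := by
        by_cases hx : x = 0
        · have h3 : divg G X x = 0 := divg_support fun h => hX.away h hx
          rw [h3, mul_zero, indicator_of_notMem]
          rintro ⟨h4, _⟩
          exact h4 hx
        · by_cases h4 : w x < c
          · rw [if_pos h4, one_mul, indicator_of_mem]
            exact ⟨hx, h4⟩
          · rw [if_neg h4, zero_mul, indicator_of_notMem]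
            rintro ⟨_, h5⟩
            exact h4 h5
      rw [← h2]
      exact h1
  refine le_of_tendsto (x := 𝓝[>] (0:ℝ)) hlim ?_
  rw [hD']
  filter_upwards [Ioc_mem_nhdsGT hε₀] with ε hε
  exact hcut ε hε.1 hε.2

end Pool.Agent.V8H95.PI
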